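import Pool.Agent.Lib.MP_b197b4_ntC.CDefs

/-!
# MP_b197b4_nt, project K1: BERT

A pencil of planes whose base line meets the surface `f = 0` transversally in one point has only
finitely many reducible members.
-/

set_option autoImplicit false

noncomputable section

namespace MPb197b4P

open Polynomial Ring

/-! ## Hensel's lemma for polynomials which are not monic -/

theorem BO_hensel {R : Type*} [CommRing R] (f : (PowerSeries R)[X]) (a₀ : PowerSeries R)
    (h₁ : f.eval a₀ ∈ (Ideal.span {PowerSeries.X} : Ideal (PowerSeries R)))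
    (h₂ : IsUnit ((derivative f).eval a₀)) :
    ∃ a, f.eval a = 0 ∧ a - a₀ ∈ (Ideal.span {PowerSeries.X} : Ideal (PowerSeries R)) := by
  classical
  set I : Ideal (PowerSeries R) := Ideal.span {PowerSeries.X} with hI
  let f' := derivative f
  let c : ℕ → PowerSeries R := fun n => Nat.recOn n a₀ fun _ b => b - f.eval b * (f'.eval b)⁻¹ʳ
  have hc : ∀ n, c (n + 1) = c n - f.eval (c n) * (f'.eval (c n))⁻¹ʳ := by
    intro n
    simp only [c]
  have hc_mod : ∀ n, c n ≡ a₀ [SMOD I] := by
    intro n
    induction n with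
    | zero => rfl
    | succ n ih =>
      rw [hc, sub_eq_add_neg, ← add_zero a₀]
      refine ih.add ?_
      rw [SModEq.zero, Ideal.neg_mem_iff]
      refine I.mul_mem_right _ ?_
      rw [← SModEq.zero] at h₁ ⊢
      exact (ih.eval f).trans h₁
  have hf'c : ∀ n, IsUnit (f'.eval (c n)) := by
    intro n
    have hloc := isLocalHom_of_le_jacobson_bot I (IsAdicComplete.le_jacobson_bot I)
    apply IsUnit.of_map (Ideal.Quotient.mk I)
    have h3 : Ideal.Quotient.mk I (f'.eval (c n)) = Ideal.Quotient.mk I (f'.eval a₀) :=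
      SModEq.def.mp ((hc_mod n).eval _)
    rw [h3]
    exact h₂.map _
  have hfcI : ∀ n, f.eval (c n) ∈ I ^ (n + 1) := by
    intro n
    induction n with
    | zero => simpa only [Nat.rec_zero, zero_add, pow_one] using! h₁
    | succ n ih =>
      rw [← taylor_eval_sub (c n), hc, sub_eq_add_neg, sub_eq_add_neg, add_neg_cancel_comm]
      rw [eval_eq_sum, sum_over_range' _ _ _ (lt_add_of_pos_right _ zero_lt_two), ←
        Finset.sum_range_add_sum_Ico _ (Nat.le_add_left _ _)]
      swap
      · intro i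
        rw [zero_mul]
      refine Ideal.add_mem _ ?_ ?_
      · rw [← one_add_one_eq_two, Finset.sum_range_succ, Finset.range_one, Finset.sum_singleton,
          taylor_coeff_zero, taylor_coeff_one, pow_zero, pow_one, mul_one, mul_neg,
          mul_left_comm, Ring.mul_inverse_cancel _ (hf'c n), mul_one, add_neg_cancel]
        exact Ideal.zero_mem _
      · refine Submodule.sum_mem _ ?_
        simp only [Finset.mem_Ico]
        rintro i ⟨h2i, _⟩
        have aux : n + 2 ≤ i * (n + 1) := by
          have : 2 * (n + 1) ≤ i * (n + 1) := Nat.mul_le_mul_right _ h2i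
          omega
        refine Ideal.mul_mem_left _ _ (Ideal.pow_le_pow_right aux ?_)
        rw [pow_mul']
        exact Ideal.pow_mem_pow ((Ideal.neg_mem_iff _).2 <| Ideal.mul_mem_right _ _ ih) _
  have aux : ∀ m n, m ≤ n → c m ≡ c n [SMOD (I ^ m • ⊤ : Ideal (PowerSeries R))] := by
    intro m n hmn
    rw [← Ideal.one_eq_top, Ideal.smul_eq_mul, mul_one]
    obtain ⟨k, rfl⟩ := Nat.exists_eq_add_of_le hmn
    clear hmn
    induction k with
    | zero => rw [add_zero]
    | succ k ih =>
      rw [← add_assoc, hc, ← add_zero (c m), sub_eq_add_neg]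
      refine ih.add ?_
      symm
      rw [SModEq.zero, Ideal.neg_mem_iff]
      refine Ideal.mul_mem_right _ _ (Ideal.pow_le_pow_right ?_ (hfcI _))
      rw [add_assoc]
      exact le_self_add
  obtain ⟨a, ha⟩ := IsPrecomplete.prec' c (aux _ _)
  refine ⟨a, ?_, ?_⟩
  · suffices ∀ n, f.eval a ≡ 0 [SMOD (I ^ n • ⊤ : Ideal (PowerSeries R))] by
      exact IsHausdorff.haus' _ this
    intro n
    specialize ha n
    rw [← Ideal.one_eq_top, Ideal.smul_eq_mul, mul_one] at ha ⊢
    refine (ha.symm.eval f).trans ?_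
    rw [SModEq.zero]
    exact Ideal.pow_le_pow_right le_self_add (hfcI _)
  · specialize ha (0 + 1)
    rw [hc, pow_one, ← Ideal.one_eq_top, Ideal.smul_eq_mul, mul_one, sub_eq_add_neg] at ha
    rw [← SModEq.sub_mem, ← add_zero a₀]
    refine ha.symm.trans (SModEq.rfl.add ?_)
    rw [SModEq.zero, Ideal.neg_mem_iff]
    exact Ideal.mul_mem_right _ _ h₁

variable {k : Type} [Field k]

/-! ## The homomorphisms -/

/-- constants -/
def BO_cst (k : Type) [Field k] : k →+* PowerSeries k[X] := PowerSeries.C.comp C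

/-- `X ↦ x`, `Y ↦ Y` -/
def BO_phi0 (x : PowerSeries k[X]) : k[X][X] →+* PowerSeries k[X] :=
  eval₂RingHom (eval₂RingHom (BO_cst k) x) PowerSeries.X

/-- `X ↦ x`, `Y ↦ Y`, `Z ↦ κ Y` -/
def BO_phi (x : PowerSeries k[X]) : k[X][X][X] →+* PowerSeries k[X] :=
  eval₂RingHom (BO_phi0 x) (PowerSeries.C X * PowerSeries.X)

/-- `X ↦ ξ`, `Y ↦ Y` over `k` -/
def BO_chi (ξ : PowerSeries k) : k[X][X] →+* PowerSeries k :=
  eval₂RingHom (eval₂RingHom PowerSeries.C ξ) PowerSeries.X

/-- specialization of `κ` -/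
def BO_sp (κ : k) : PowerSeries k[X] →+* PowerSeries k := PowerSeries.map (evalRingHom κ)

theorem BO_sp_phi0 (x : PowerSeries k[X]) (κ : k) :
    (BO_sp κ).comp (BO_phi0 x) = BO_chi (BO_sp κ x) := by
  refine Polynomial.ringHom_ext' (Polynomial.ringHom_ext (fun a => ?_) ?_) ?_
  · simp [BO_phi0, BO_chi, BO_sp, BO_cst]
  · simp [BO_phi0, BO_chi, BO_sp]
  · simp [BO_phi0, BO_chi, BO_sp]

theorem BO_sp_phi (x : PowerSeries k[X]) (κ : k) (g : k[X][X][X]) :
    BO_sp κ (BO_phi x g) =
      (g.map (BO_chi (BO_sp κ x))).eval (PowerSeries.C κ * PowerSeries.X) := by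
  have h : (BO_sp κ).comp (BO_phi x) = (evalRingHom (PowerSeries.C κ * PowerSeries.X)).comp
      (mapRingHom (BO_chi (BO_sp κ x))) := by
    refine Polynomial.ringHom_ext' ?_ ?_
    · rw [← BO_sp_phi0]
      ext1
      · ext a
        · simp [BO_phi]
        · simp [BO_phi]
      · simp [BO_phi]
    · simp [BO_phi, BO_sp]
  exact congrArg (fun φ : k[X][X][X] →+* PowerSeries k => φ g) h

theorem BO_sp_fib (x : PowerSeries k[X]) (κ : k) (g : k[X][X][X]) :
    BO_sp κ (BO_phi x g) = BO_chi (BO_sp κ x) (fib g κ 0) := by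
  have h : (evalRingHom (PowerSeries.C κ * PowerSeries.X)).comp
      (mapRingHom (BO_chi (BO_sp κ x))) =
      (BO_chi (BO_sp κ x)).comp (evalRingHom (C (C κ) * X + C 0)) := by
    refine Polynomial.ringHom_ext' ?_ ?_
    · ext1
      · ext a
        · simp
        · simp
      · simp
    · simp [BO_chi]
  rw [BO_sp_phi, fib]
  exact congrArg (fun φ : k[X][X][X] →+* PowerSeries k => φ g) h

/-! ## The branch at the simple root -/

theorem BO_exists_root (f : k[X][X][X]) (a₀ : k) (h0 : ((f.eval 0).eval 0).eval a₀ = 0)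
    (h1 : (derivative ((f.eval 0).eval 0)).eval a₀ ≠ 0) :
    ∃ x : PowerSeries k[X], BO_phi x f = 0 := by
  let θ : k[X][X][X] →+* (PowerSeries k[X])[X] :=
    eval₂RingHom (eval₂RingHom (mapRingHom (BO_cst k)) (C PowerSeries.X))
      (C (PowerSeries.C X * PowerSeries.X))
  have hθ : ∀ x : PowerSeries k[X], (evalRingHom x).comp θ = BO_phi x := by
    intro x
    refine Polynomial.ringHom_ext' ?_ ?_
    · ext1
      · ext a
        · simp [θ, BO_phi, BO_phi0]
        · simp [θ, BO_phi, BO_phi0]
      · simp [θ, BO_phi, BO_phi0]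
    · simp [θ, BO_phi]
  have hθc : (mapRingHom (PowerSeries.constantCoeff (R := k[X]))).comp θ =
      (mapRingHom (C : k →+* k[X])).comp ((evalRingHom (0 : k[X])).comp
        (evalRingHom (0 : k[X][X]))) := by
    refine Polynomial.ringHom_ext' ?_ ?_
    · ext1
      · ext a
        · simp [θ, BO_cst]
        · simp [θ]
      · simp [θ]
    · simp [θ]
  have hθc' : (θ f).map (PowerSeries.constantCoeff (R := k[X])) = ((f.eval 0).eval 0).map C :=
    congrArg (fun φ : k[X][X][X] →+* k[X][X] => φ f) hθc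
  have hcc : ∀ g : (PowerSeries k[X])[X], PowerSeries.constantCoeff (g.eval (PowerSeries.C (C a₀))) =
      (g.map (PowerSeries.constantCoeff (R := k[X]))).eval (C a₀) := by
    intro g
    rw [eval_map, ← eval₂_at_apply, PowerSeries.constantCoeff_C]
  obtain ⟨x, hx, -⟩ := BO_hensel (θ f) (PowerSeries.C (C a₀)) (by
    rw [Ideal.mem_span_singleton, PowerSeries.X_dvd_iff, hcc, hθc', eval_map, eval₂_at_apply, h0,
      C_0]) (by
    rw [PowerSeries.isUnit_iff_constantCoeff, hcc, ← derivative_map, hθc', derivative_map, eval_map,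
      eval₂_at_apply]
    exact isUnit_C.2 (isUnit_iff_ne_zero.2 h1))
  refine ⟨x, ?_⟩
  rw [← hθ x]
  exact hx

/-- No relation between `x` and `Y` over `k`. -/
theorem BO_phi0_injective [Infinite k] {f : k[X][X][X]} (hf : f.Monic) {x : PowerSeries k[X]}
    (hx : BO_phi x f = 0) {D : k[X][X]} (hD : BO_phi0 x D = 0) : D = 0 := by
  classical
  by_contra hD0
  let θ : k[X][X] →+* (PowerSeries k)[X] :=
    eval₂RingHom (mapRingHom PowerSeries.C) (C PowerSeries.X)
  have hθ : ∀ ξ : PowerSeries k, (evalRingHom ξ).comp θ = BO_chi ξ := by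
    intro ξ
    ext1
    · ext a
      · simp [θ, BO_chi]
      · simp [θ, BO_chi]
    · simp [θ, BO_chi]
  have hθ2 : θ = (mapRingHom (coeToPowerSeries.ringHom (R := k))).comp
      (RingHomClass.toRingHom (Bivariate.swap (R := k))) := by
    refine Polynomial.ringHom_ext' (Polynomial.ringHom_ext (fun a => ?_) ?_) ?_
    · have h := Bivariate.swap_C_C (R := k) a
      simp [θ, h]
    · have h := Bivariate.swap_X (R := k)
      simp [θ, h]
    · have h := Bivariate.swap_Y (R := k)
      simp [θ, h]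
  have hD1 : θ D ≠ 0 := by
    rw [hθ2]
    intro h
    have h2 : (Bivariate.swap D).map (coeToPowerSeries.ringHom (R := k)) = 0 := h
    rw [Polynomial.map_eq_zero_iff (fun a b hab => Polynomial.coe_injective k hab)] at h2
    exact hD0 ((map_eq_zero_iff _ (Bivariate.swap (R := k)).injective).1 h2)
  have hroot : ∀ κ : k, BO_sp κ x ∈ (θ D).roots.toFinset := by
    intro κ
    rw [Multiset.mem_toFinset, mem_roots hD1, IsRoot.def]
    have h1 : (θ D).eval (BO_sp κ x) = BO_chi (BO_sp κ x) D := by
      rw [← hθ]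
      rfl
    rw [h1, ← BO_sp_phi0, RingHom.comp_apply, hD, map_zero]
  obtain ⟨⟨ξ, hξ0⟩, hinf⟩ := Finite.exists_infinite_fiber
    (fun κ : k => (⟨BO_sp κ x, hroot κ⟩ : (θ D).roots.toFinset))
  have hT : Set.Infinite {κ : k | BO_sp κ x = ξ} := by
    have h1 := Set.infinite_coe_iff.1 hinf
    refine h1.mono ?_
    intro κ hκ
    exact congrArg Subtype.val hκ
  have hq : f.map (BO_chi ξ) = 0 := by
    refine Polynomial.eq_zero_of_infinite_isRoot _ ?_
    refine (hT.image (f := fun κ : k => PowerSeries.C κ * PowerSeries.X) ?_).mono ?_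
    · intro a _ b _ hab
      have h2 := congrArg (PowerSeries.coeff 1) hab
      simpa using h2
    · rintro _ ⟨κ, hκ, rfl⟩
      have h3 := BO_sp_phi x κ f
      rw [hx, map_zero, show BO_sp κ x = ξ from hκ] at h3
      exact h3.symm
  exact (hf.map (BO_chi ξ)).ne_zero hq

/-- The kernel of `X ↦ x`, `Y ↦ Y`, `Z ↦ κ Y` is generated by `f`. -/
theorem BO_dvd [Infinite k] {f : k[X][X][X]} (hf : f.Monic) (hfi : Irreducible f)
    {x : PowerSeries k[X]} (hx : BO_phi x f = 0) {g : k[X][X][X]} (hg : BO_phi x g = 0) : f ∣ g := by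
  by_contra hfg
  have hp : Prime f := hfi.prime
  have hdom : IsDomain (AdjoinRoot f) := AdjoinRoot.isDomain_of_prime hp
  let ψ : AdjoinRoot f →+* PowerSeries k[X] :=
    AdjoinRoot.lift (BO_phi0 x) (PowerSeries.C X * PowerSeries.X) hx
  have h1 : AdjoinRoot.mk f g ≠ 0 := by
    rwa [Ne, AdjoinRoot.mk_eq_zero]
  have h2 : AdjoinRoot.mk f g ∈ RingHom.ker ψ := by
    rw [RingHom.mem_ker, AdjoinRoot.lift_mk]
    exact hg
  have hfin : Module.Finite k[X][X] (AdjoinRoot f) := hf.finite_adjoinRoot
  have hint : Algebra.IsIntegral k[X][X] (AdjoinRoot f) := Algebra.IsIntegral.of_finite _ _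
  have h3 := Ideal.comap_ne_bot_of_integral_mem (R := k[X][X]) h1 h2
    (hint.isIntegral _)
  apply h3
  rw [eq_bot_iff]
  intro D hD
  rw [Ideal.mem_comap, RingHom.mem_ker] at hD
  have h4 : BO_phi0 x D = 0 := by
    rw [← hD]
    exact (AdjoinRoot.lift_of hx).symm
  rw [BO_phi0_injective hf hx h4]
  exact Submodule.zero_mem _

/-! ## Independence of the monomials `x ^ a Y ^ b` over `k(κ)` -/

/-- `X ↦ X`, `Y ↦ Y`, `Z ↦ κ Y`; in the target `κ` is the innermost, `Y` the outermost variable. -/
def BO_sigma (k : Type) [Field k] : k[X][X][X] →+* k[X][X][X] :=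
  eval₂RingHom (R := k[X][X]) (S := k[X][X][X])
    (mapRingHom (mapRingHom (C : k →+* k[X]))) (C (C X) * X)

theorem BO_sigma_X : BO_sigma k X = C (C X) * X := by
  simp [BO_sigma]

theorem BO_sigma_C (a : k[X][X]) : BO_sigma k (C a) = a.map (mapRingHom C) := by
  simp [BO_sigma]

/-- `κ ↦ κ`, `X ↦ x`, `Y ↦ Y`. -/
def BO_psi (x : PowerSeries k[X]) : k[X][X][X] →+* PowerSeries k[X] :=
  eval₂RingHom (eval₂RingHom PowerSeries.C x) PowerSeries.X

theorem BO_psi_sigma (x : PowerSeries k[X]) (g : k[X][X][X]) :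
    BO_psi x (BO_sigma k g) = BO_phi x g := by
  have h : (BO_psi x).comp (BO_sigma k) = BO_phi x := by
    refine Polynomial.ringHom_ext' ?_ ?_
    · ext1
      · ext a
        · simp [BO_psi, BO_sigma, BO_phi, BO_phi0, BO_cst]
        · simp [BO_psi, BO_sigma, BO_phi, BO_phi0]
      · simp [BO_psi, BO_sigma, BO_phi, BO_phi0]
    · simp [BO_psi, BO_sigma, BO_phi]
  exact congrArg (fun φ : k[X][X][X] →+* PowerSeries k[X] => φ g) h

theorem BO_fib_sigma (κ : k) (g : k[X][X][X]) :
    fib g κ 0 = (BO_sigma k g).map (mapRingHom (evalRingHom κ)) := by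
  have h : (mapRingHom (mapRingHom (evalRingHom κ))).comp (BO_sigma k) =
      evalRingHom (C (C κ) * X + C 0) := by
    refine Polynomial.ringHom_ext' ?_ ?_
    · ext1
      · ext a
        · simp [BO_sigma]
        · simp [BO_sigma]
      · simp [BO_sigma]
    · simp [BO_sigma]
  exact (congrArg (fun φ : k[X][X][X] →+* k[X][X] => φ g) h).symm

theorem BO_coeff_sigma (f : k[X][X][X]) (n : ℕ) :
    (BO_sigma k f).coeff n =
      ∑ j ∈ Finset.range (n + 1), ((f.coeff j).coeff (n - j)).map C * C (X ^ j) := by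
  induction f using Polynomial.induction_on' with
  | add p q hp hq =>
    rw [map_add, coeff_add, hp, hq, ← Finset.sum_add_distrib]
    refine Finset.sum_congr rfl fun j _ => ?_
    rw [coeff_add, coeff_add, Polynomial.map_add, add_mul]
  | monomial m a =>
    have h1 : BO_sigma k (monomial m a) =
        (a.map (mapRingHom C) * C (C (X ^ m))) * X ^ m := by
      rw [← C_mul_X_pow_eq_monomial, map_mul, map_pow, BO_sigma_X, BO_sigma_C]
      simp only [C_pow]
      ring
    rw [h1, coeff_mul_X_pow']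
    split_ifs with hmn
    · rw [Finset.sum_eq_single m, coeff_mul_C, coeff_map, coe_mapRingHom, coeff_monomial_same]
      · intro j _ hj
        rw [coeff_monomial, if_neg (Ne.symm hj), coeff_zero, Polynomial.map_zero, zero_mul]
      · intro hm
        exact absurd (Finset.mem_range.2 (by omega)) hm
    · symm
      refine Finset.sum_eq_zero fun j hj => ?_
      rw [Finset.mem_range] at hj
      rw [coeff_monomial, if_neg (by omega), coeff_zero, Polynomial.map_zero, zero_mul]

theorem BO_coeff_fib (f : k[X][X][X]) (κ : k) (n : ℕ) :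
    (fib f κ 0).coeff n = ∑ j ∈ Finset.range (n + 1), (f.coeff j).coeff (n - j) * C (κ ^ j) := by
  rw [BO_fib_sigma, coeff_map, BO_coeff_sigma, map_sum]
  refine Finset.sum_congr rfl fun j _ => ?_
  rw [map_mul, coe_mapRingHom, map_map, map_C]
  have h1 : (evalRingHom κ).comp (C : k →+* k[X]) = RingHom.id k := by
    ext a
    simp
  rw [h1, Polynomial.map_id]
  simp

/-- Denominators. -/
theorem BO_den (G : k[X][X][X]) : ∃ (e : ℕ) (g : k[X][X][X]), X ^ e * G = BO_sigma k g := by
  have hY : BO_sigma k (C X) = X := by simp [BO_sigma]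
  have hadd : ∀ G H : k[X][X][X], (∃ (e : ℕ) (g : k[X][X][X]), X ^ e * G = BO_sigma k g) →
      (∃ (e : ℕ) (g : k[X][X][X]), X ^ e * H = BO_sigma k g) →
      ∃ (e : ℕ) (g : k[X][X][X]), X ^ e * (G + H) = BO_sigma k g := by
    rintro G H ⟨e, g, h⟩ ⟨e', g', h'⟩
    refine ⟨e + e', (C X) ^ e' * g + (C X) ^ e * g', ?_⟩
    rw [map_add, map_mul, map_mul, map_pow, map_pow, hY, ← h, ← h']
    ring
  have hmul : ∀ G H : k[X][X][X], (∃ (e : ℕ) (g : k[X][X][X]), X ^ e * G = BO_sigma k g) →
      (∃ (e : ℕ) (g : k[X][X][X]), X ^ e * H = BO_sigma k g) →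
      ∃ (e : ℕ) (g : k[X][X][X]), X ^ e * (G * H) = BO_sigma k g := by
    rintro G H ⟨e, g, h⟩ ⟨e', g', h'⟩
    refine ⟨e + e', g * g', ?_⟩
    rw [map_mul, ← h, ← h']
    ring
  have hpow : ∀ (G : k[X][X][X]) (n : ℕ), (∃ (e : ℕ) (g : k[X][X][X]), X ^ e * G = BO_sigma k g) →
      ∃ (e : ℕ) (g : k[X][X][X]), X ^ e * G ^ n = BO_sigma k g := by
    intro G n hG
    induction n with
    | zero => exact ⟨0, 1, by simp⟩
    | succ n ih =>
      rw [pow_succ]
      exact hmul _ _ ih hG
  induction G using Polynomial.induction_on' with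
  | add p q hp hq => exact hadd _ _ hp hq
  | monomial n a =>
    rw [← C_mul_X_pow_eq_monomial]
    refine hmul _ _ ?_ (hpow _ _ ⟨0, C X, by rw [hY, pow_zero, one_mul]⟩)
    induction a using Polynomial.induction_on' with
    | add p q hp hq =>
      rw [C_add]
      exact hadd _ _ hp hq
    | monomial m b =>
      rw [← C_mul_X_pow_eq_monomial, C_mul, C_pow]
      refine hmul _ _ ?_ (hpow _ _ ⟨0, C (C X), by simp [BO_sigma]⟩)
      induction b using Polynomial.induction_on' with
      | add p q hp hq =>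
        rw [C_add, C_add]
        exact hadd _ _ hp hq
      | monomial l c =>
        rw [← C_mul_X_pow_eq_monomial, C_mul, C_mul, C_pow, C_pow]
        refine hmul _ _ ⟨0, C (C (C c)), by simp [BO_sigma]⟩ (hpow _ _ ⟨1, X, ?_⟩)
        rw [BO_sigma_X]
        ring

theorem BO_psi_injective [Infinite k] {f : k[X][X][X]} (hf : f.Monic) (hfi : Irreducible f)
    (h00 : (f.coeff 0).coeff 0 ≠ 0) {x : PowerSeries k[X]} (hx : BO_phi x f = 0)
    {G : k[X][X][X]} (hG : BO_psi x G = 0) (hdeg : G.natDegree < f.natDegree) : G = 0 := by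
  by_contra hG0
  obtain ⟨e, g, hg⟩ := BO_den G
  have h1 : BO_phi x g = 0 := by
    rw [← BO_psi_sigma, ← hg, map_mul, hG, mul_zero]
  obtain ⟨h, rfl⟩ := BO_dvd hf hfi hx h1
  rw [map_mul] at hg
  have hne : X ^ e * G ≠ 0 := mul_ne_zero (pow_ne_zero _ X_ne_zero) hG0
  have hs0 : BO_sigma k f ≠ 0 := by
    intro h0
    rw [h0, zero_mul] at hg
    exact hne hg
  have hs1 : BO_sigma k h ≠ 0 := by
    intro h0
    rw [h0, mul_zero] at hg
    exact hne hg
  have h2 : f.natDegree ≤ (BO_sigma k f).natDegree := by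
    refine le_natDegree_of_ne_zero ?_
    intro h0
    have h3 := congrArg (fun P : k[X][X] => (P.coeff 0).coeff f.natDegree) h0
    simp only [BO_coeff_sigma, finsetSum_coeff, coeff_zero] at h3
    rw [Finset.sum_eq_single f.natDegree] at h3
    · rw [Nat.sub_self, hf.coeff_natDegree] at h3
      rw [coeff_one_zero, Polynomial.map_one, one_mul, coeff_C_zero, coeff_X_pow_self] at h3
      exact one_ne_zero h3
    · intro j _ hj
      rw [coeff_mul_C, coeff_map, coeff_C_mul, coeff_X_pow, if_neg (Ne.symm hj), mul_zero]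
    · intro h4
      exact absurd (Finset.mem_range.2 (by omega)) h4
  have h3 : (BO_sigma k f).natTrailingDegree = 0 := by
    refine natTrailingDegree_eq_zero.2 (Or.inr ?_)
    rw [BO_coeff_sigma]
    simp only [zero_add, Finset.range_one, Finset.sum_singleton, pow_zero, map_one, mul_one,
      Nat.sub_zero]
    intro h0
    rw [Polynomial.map_eq_zero_iff (C_injective)] at h0
    exact h00 h0
  have h4 := congrArg natDegree hg
  have h5 := congrArg natTrailingDegree hg
  rw [natDegree_mul (pow_ne_zero _ X_ne_zero) hG0, natDegree_mul hs0 hs1, natDegree_X_pow] at h4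
  rw [natTrailingDegree_mul (pow_ne_zero _ X_ne_zero) hG0, natTrailingDegree_mul hs0 hs1, h3,
    natTrailingDegree_X_pow] at h5
  have h6 := natTrailingDegree_le_natDegree (BO_sigma k h)
  omega

/-! ## Specialization of linearly independent families -/

theorem BO_one_row {ι : Type} [Fintype ι] [DecidableEq ι] (v : ι → PowerSeries k[X])
    (hv : ∀ c : ι → k[X], ∑ i, PowerSeries.C (c i) * v i = 0 → c = 0) (i : ι) :
    ∃ (δ : k[X]) (N : ℕ) (d : ℕ → k[X]), δ ≠ 0 ∧
      ∀ j, ∑ n ∈ Finset.range N, d n * PowerSeries.coeff n (v j) = if j = i then δ else 0 := by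
  classical
  let L := RatFunc k
  let φ : ℕ → (ι → L) →ₗ[L] L := fun n =>
    ∑ j, (algebraMap k[X] L (PowerSeries.coeff n (v j))) • LinearMap.proj j
  have hφ : ∀ n (c : ι → L), φ n c = ∑ j, algebraMap k[X] L (PowerSeries.coeff n (v j)) * c j := by
    intro n c
    simp only [φ]
    rw [LinearMap.sum_apply]
    refine Finset.sum_congr rfl fun j _ => ?_
    rw [LinearMap.smul_apply, LinearMap.proj_apply, smul_eq_mul]
  have hker : ⨅ n, LinearMap.ker (φ n) ≤ LinearMap.ker (LinearMap.proj i : (ι → L) →ₗ[L] L) := by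
    intro c hc
    rw [Submodule.mem_iInf] at hc
    obtain ⟨b, hb⟩ := IsLocalization.exist_integer_multiples_of_finite (nonZeroDivisors k[X]) c
    choose c' hc' using hb
    have hb0 : algebraMap k[X] L b ≠ 0 := by
      intro h0
      exact nonZeroDivisors.coe_ne_zero b
        ((FaithfulSMul.algebraMap_injective k[X] L) (h0.trans (map_zero _).symm))
    have h1 : ∑ j, PowerSeries.C (c' j) * v j = 0 := by
      ext1 n
      rw [map_sum, map_zero]
      apply FaithfulSMul.algebraMap_injective k[X] L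
      rw [map_sum, map_zero]
      have h2 := hc n
      rw [LinearMap.mem_ker, hφ] at h2
      have h3 : ∑ j, algebraMap k[X] L (PowerSeries.coeff n (PowerSeries.C (c' j) * v j)) =
          algebraMap k[X] L b * ∑ j, algebraMap k[X] L (PowerSeries.coeff n (v j)) * c j := by
        rw [Finset.mul_sum]
        refine Finset.sum_congr rfl fun j _ => ?_
        rw [PowerSeries.coeff_C_mul, map_mul, hc' j, Algebra.smul_def]
        ring
      rw [h3, h2, mul_zero]
    have h4 := hv c' h1
    have h5 := hc' i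
    rw [h4, Pi.zero_apply, map_zero, Algebra.smul_def] at h5
    rw [LinearMap.mem_ker, LinearMap.proj_apply]
    exact (mul_eq_zero.1 h5.symm).resolve_left hb0
  have hmem := FiniteDimensional.mem_span_of_iInf_ker_le_ker hker
  obtain ⟨b, hb⟩ := (Finsupp.mem_span_range_iff_exists_finsupp).1 hmem
  obtain ⟨N, hN⟩ : ∃ N, b.support ⊆ Finset.range N := by
    obtain ⟨N, hN⟩ := b.support.exists_nat_subset_range
    exact ⟨N, hN⟩
  obtain ⟨δ, hδ⟩ := IsLocalization.exist_integer_multiples_of_finset (nonZeroDivisors k[X])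
    ((Finset.range N).image b)
  have hd : ∀ n, ∃ d : k[X], n ∈ Finset.range N → algebraMap k[X] L d = algebraMap k[X] L δ * b n := by
    intro n
    by_cases hn : n ∈ Finset.range N
    · obtain ⟨d, hd⟩ := hδ (b n) (Finset.mem_image_of_mem _ hn)
      exact ⟨d, fun _ => by rw [hd, Algebra.smul_def]⟩
    · exact ⟨0, fun h => absurd h hn⟩
  choose d hd using hd
  refine ⟨δ, N, d, nonZeroDivisors.coe_ne_zero δ, fun j => ?_⟩
  apply FaithfulSMul.algebraMap_injective k[X] L
  have h1 : ∑ n ∈ Finset.range N, b n * algebraMap k[X] L (PowerSeries.coeff n (v j)) =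
      if j = i then 1 else 0 := by
    have h2 := congrArg (fun ψ : (ι → L) →ₗ[L] L => ψ (Pi.single j 1)) hb
    simp only [LinearMap.proj_apply] at h2
    rw [Finsupp.sum_of_support_subset b hN _ (by simp), LinearMap.sum_apply] at h2
    have h3 : ∀ n, (b n • φ n) (Pi.single j 1) =
        b n * algebraMap k[X] L (PowerSeries.coeff n (v j)) := by
      intro n
      rw [LinearMap.smul_apply, hφ, Finset.sum_eq_single j]
      · simp
      · intro l _ hl
        rw [Pi.single_eq_of_ne hl, mul_zero]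
      · intro h
        exact absurd (Finset.mem_univ _) h
    simp only [h3] at h2
    rw [h2, Pi.single_apply]
    simp only [eq_comm]
  rw [map_sum]
  have h2 : ∀ n ∈ Finset.range N, algebraMap k[X] L (d n * PowerSeries.coeff n (v j)) =
      algebraMap k[X] L δ * (b n * algebraMap k[X] L (PowerSeries.coeff n (v j))) := by
    intro n hn
    rw [map_mul, hd n hn, mul_assoc]
  rw [Finset.sum_congr rfl h2, ← Finset.mul_sum, h1]
  split_ifs <;> simp

theorem BO_spec_indep {ι : Type} [Fintype ι] (v : ι → PowerSeries k[X])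
    (hv : ∀ c : ι → k[X], ∑ i, PowerSeries.C (c i) * v i = 0 → c = 0) :
    ∃ δ : k[X], δ ≠ 0 ∧ ∀ κ : k, δ.eval κ ≠ 0 → ∀ c : ι → k,
      ∑ i, PowerSeries.C (c i) * BO_sp κ (v i) = 0 → c = 0 := by
  classical
  choose δ N d hδ h using BO_one_row v hv
  refine ⟨∏ i, δ i, Finset.prod_ne_zero_iff.2 fun i _ => hδ i, fun κ hκ c hc => ?_⟩
  rw [eval_prod, Finset.prod_ne_zero_iff] at hκ
  funext i
  have h1 : ∀ n, ∑ j, c j * (PowerSeries.coeff n (v j)).eval κ = 0 := by
    intro n
    have h2 := congrArg (PowerSeries.coeff n) hc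
    rw [map_sum, map_zero] at h2
    rw [← h2]
    refine Finset.sum_congr rfl fun j _ => ?_
    rw [PowerSeries.coeff_C_mul, BO_sp, PowerSeries.coeff_map, coe_evalRingHom]
  have h3 : ∑ n ∈ Finset.range (N i), (d i n).eval κ *
      ∑ j, c j * (PowerSeries.coeff n (v j)).eval κ = c i * (δ i).eval κ := by
    have h4 : ∀ n ∈ Finset.range (N i), (d i n).eval κ *
        ∑ j, c j * (PowerSeries.coeff n (v j)).eval κ =
        ∑ j, c j * ((d i n) * PowerSeries.coeff n (v j)).eval κ := by
      intro n _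
      rw [Finset.mul_sum]
      refine Finset.sum_congr rfl fun j _ => ?_
      rw [eval_mul]
      ring
    rw [Finset.sum_congr rfl h4, Finset.sum_comm]
    have h5 : ∀ j, ∑ n ∈ Finset.range (N i), c j * ((d i n) * PowerSeries.coeff n (v j)).eval κ =
        c j * (if j = i then δ i else 0).eval κ := by
      intro j
      rw [← Finset.mul_sum, ← eval_finsetSum, h i j]
    rw [Finset.sum_congr rfl fun j _ => h5 j, Finset.sum_eq_single i]
    · rw [if_pos rfl]
    · intro j _ hj
      rw [if_neg hj, eval_zero, mul_zero]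
    · intro h6
      exact absurd (Finset.mem_univ _) h6
  rw [Finset.sum_eq_zero (fun n _ => by rw [h1 n, mul_zero])] at h3
  exact (mul_eq_zero.1 h3.symm).resolve_right (hκ i (Finset.mem_univ _))

/-! ## The theorem -/

theorem BO_coeff_swap (p : k[X][X]) (i j : ℕ) :
    ((Bivariate.swap p).coeff i).coeff j = (p.coeff j).coeff i := by
  induction p using Polynomial.induction_on' with
  | add p r hp hr =>
    rw [map_add, coeff_add, coeff_add, coeff_add, coeff_add, hp, hr]
  | monomial n a =>
    induction a using Polynomial.induction_on' with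
    | add p r hp hr =>
      rw [map_add, map_add, coeff_add, coeff_add, coeff_add, coeff_add, hp, hr]
    | monomial m b =>
      rw [Bivariate.swap_monomial_monomial, coeff_monomial, coeff_monomial]
      by_cases h1 : m = i <;> by_cases h2 : n = j <;> simp [h1, h2, coeff_monomial]

/-- The degree in the inner variable of a factor. -/
theorem BO_inner_deg {F G : k[X][X]} (hF : F ≠ 0) {B : ℕ} (hB : ∀ n, (F.coeff n).natDegree ≤ B)
    (hG : G ∣ F) (n : ℕ) : (G.coeff n).natDegree ≤ B := by
  have h1 : (Bivariate.swap G) ∣ (Bivariate.swap F) := by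
    obtain ⟨H, rfl⟩ := hG
    exact ⟨Bivariate.swap H, map_mul _ _ _⟩
  have h2 : Bivariate.swap F ≠ 0 := by
    intro h0
    exact hF ((map_eq_zero_iff _ (Bivariate.swap (R := k)).injective).1 h0)
  have h3 : (Bivariate.swap F).natDegree ≤ B := by
    rw [natDegree_le_iff_coeff_eq_zero]
    intro i hi
    ext j
    rw [BO_coeff_swap, coeff_zero]
    exact coeff_eq_zero_of_natDegree_lt (lt_of_le_of_lt (hB j) hi)
  have h4 := (natDegree_le_of_dvd h1 h2).trans h3
  rw [natDegree_le_iff_coeff_eq_zero]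
  intro i hi
  rw [← BO_coeff_swap, coeff_eq_zero_of_natDegree_lt (lt_of_le_of_lt h4 hi), coeff_zero]

/-- A polynomial as the sum of its terms, `X ↦ ξ`. -/
theorem BO_chi_sum (ξ : PowerSeries k) (G : k[X][X]) {B r : ℕ} (hr : G.natDegree < r)
    (hB : ∀ n, (G.coeff n).natDegree ≤ B) :
    BO_chi ξ G = ∑ i : Fin (B + 1) × Fin r,
      PowerSeries.C ((G.coeff i.2).coeff i.1) * (ξ ^ (i.1 : ℕ) * PowerSeries.X ^ (i.2 : ℕ)) := by
  rw [BO_chi, coe_eval₂RingHom, eval₂_eq_sum_range' _ hr, Fintype.sum_prod_type_right,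
    ← Fin.sum_univ_eq_sum_range (fun b => (eval₂RingHom PowerSeries.C ξ) (G.coeff b) *
      PowerSeries.X ^ b)]
  refine Finset.sum_congr rfl fun b _ => ?_
  rw [coe_eval₂RingHom, eval₂_eq_sum_range' _ (Nat.lt_succ_of_le (hB b)), Finset.sum_mul,
    ← Fin.sum_univ_eq_sum_range (fun a => PowerSeries.C ((G.coeff b).coeff a) * ξ ^ a *
      PowerSeries.X ^ (b : ℕ))]
  exact Finset.sum_congr rfl fun a _ => mul_assoc _ _ _

theorem BO_indep [Infinite k] {f : k[X][X][X]} (hf : f.Monic) (hfi : Irreducible f)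
    (h00 : (f.coeff 0).coeff 0 ≠ 0) {x : PowerSeries k[X]} (hx : BO_phi x f = 0) (B : ℕ)
    (c : Fin (B + 1) × Fin f.natDegree → k[X])
    (hc : ∑ i, PowerSeries.C (c i) * (x ^ (i.1 : ℕ) * PowerSeries.X ^ (i.2 : ℕ)) = 0) : c = 0 := by
  classical
  let G : k[X][X][X] := ∑ i : Fin (B + 1) × Fin f.natDegree,
    monomial (i.2 : ℕ) (monomial (i.1 : ℕ) (c i))
  have h1 : BO_psi x G = 0 := by
    rw [← hc, map_sum]
    refine Finset.sum_congr rfl fun i _ => ?_
    rw [BO_psi, coe_eval₂RingHom, eval₂_monomial, coe_eval₂RingHom, eval₂_monomial, mul_assoc]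
  by_cases hr : f.natDegree = 0
  · funext i
    exact absurd i.2.2 (by omega)
  have h2 : G.natDegree < f.natDegree := by
    have h5 : G.natDegree ≤ f.natDegree - 1 := by
      refine natDegree_sum_le_of_forall_le _ _ fun i _ => ?_
      refine (natDegree_monomial_le _).trans ?_
      have := i.2.2
      omega
    omega
  have h3 := BO_psi_injective hf hfi h00 hx h1 h2
  funext i
  have h4 := congrArg (fun P : k[X][X][X] => (P.coeff i.2).coeff i.1) h3
  simp only [G, finsetSum_coeff, coeff_zero] at h4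
  rw [Finset.sum_eq_single i] at h4
  · rw [coeff_monomial_same, coeff_monomial_same] at h4
    rw [h4]
    rfl
  · intro j _ hj
    rw [coeff_monomial]
    split_ifs with h5
    · rw [coeff_monomial, if_neg]
      intro h6
      exact hj (Prod.ext (Fin.ext h6) (Fin.ext h5))
    · rfl
  · intro h5
    exact absurd (Finset.mem_univ _) h5

theorem BO_factor {F G H : k[X][X]} (hFG : F = G * H) (hlc : IsUnit F.leadingCoeff)
    (hG : ¬ IsUnit G) (hH : ¬ IsUnit H) : G.natDegree < F.natDegree := by
  rw [hFG, leadingCoeff_mul, IsUnit.mul_iff] at hlc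
  have hG0 : G ≠ 0 := by
    rintro rfl
    rw [leadingCoeff_zero] at hlc
    exact not_isUnit_zero hlc.1
  have hH0 : H ≠ 0 := by
    rintro rfl
    rw [leadingCoeff_zero] at hlc
    exact not_isUnit_zero hlc.2
  rw [hFG, natDegree_mul hG0 hH0]
  have h1 : H.natDegree ≠ 0 := by
    intro h0
    apply hH
    rw [eq_C_of_natDegree_eq_zero h0]
    have h2 := hlc.2
    rw [leadingCoeff, h0] at h2
    exact isUnit_C.2 h2
  omega

/-- **BERT.** If the base line meets the surface transversally in one point, all but finitely many members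
of the pencil are irreducible. -/
theorem bert_one (k : Type) [Field k] [IsAlgClosed k] : Bert k := by
  classical
  intro f r d hf a₀ ha
  have hinf : Infinite k := IsAlgClosed.instInfinite
  have hdeg := hf.deg
  subst hdeg
  have hp0 : (f.eval 0).eval 0 ≠ 0 := by
    intro h0
    rw [h0, rootMultiplicity_zero] at ha
    exact zero_ne_one ha
  have hroot : ((f.eval 0).eval 0).eval a₀ = 0 := by
    have h1 : 0 < ((f.eval 0).eval 0).rootMultiplicity a₀ := by omega
    exact (rootMultiplicity_pos hp0).1 h1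
  have hder : (derivative ((f.eval 0).eval 0)).eval a₀ ≠ 0 := by
    intro h0
    have h1 := (one_lt_rootMultiplicity_iff_isRoot hp0).2 ⟨hroot, h0⟩
    omega
  have h00' : (f.eval 0).eval 0 = (f.coeff 0).coeff 0 := by
    rw [← coeff_zero_eq_eval_zero, ← coeff_zero_eq_eval_zero]
  have h00 : (f.coeff 0).coeff 0 ≠ 0 := h00' ▸ hp0
  have hd : 1 ≤ d := by
    by_contra hd0
    have hd1 : d = 0 := by omega
    have h1 := hf.wt 0 0 h00
    rw [hd1] at h1
    have h2 : ((f.coeff 0).coeff 0).natDegree = 0 := by omega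
    rw [h00', eq_C_of_natDegree_eq_zero h2, eval_C] at hroot
    apply h00
    rw [eq_C_of_natDegree_eq_zero h2, hroot, C_0]
  obtain ⟨x, hx⟩ := BO_exists_root f a₀ hroot hder
  obtain ⟨δ, hδ, hspec⟩ := BO_spec_indep
    (fun i : Fin (d * f.natDegree + 1) × Fin f.natDegree =>
      x ^ (i.1 : ℕ) * (PowerSeries.X : PowerSeries k[X]) ^ (i.2 : ℕ))
    (BO_indep hf.monic hf.irr h00 hx (d * f.natDegree))
  -- the coefficient of the highest power of `Y`
  let top : k[X] := ∑ j ∈ Finset.range (f.natDegree + 1),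
    C (((f.coeff j).coeff (f.natDegree - j)).coeff 0) * X ^ j
  have htop : top ≠ 0 := by
    intro h0
    have h1 := congrArg (fun P : k[X] => P.coeff f.natDegree) h0
    simp only [top, finsetSum_coeff, coeff_zero] at h1
    rw [Finset.sum_eq_single f.natDegree] at h1
    · rw [Nat.sub_self, hf.monic.coeff_natDegree, coeff_one_zero, coeff_one_zero, C_1, one_mul,
        coeff_X_pow_self] at h1
      exact one_ne_zero h1
    · intro j _ hj
      rw [coeff_C_mul, coeff_X_pow, if_neg (Ne.symm hj), mul_zero]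
    · intro h2
      exact absurd (Finset.mem_range.2 (by omega)) h2
  have hcr : ∀ κ : k, (fib f κ 0).coeff f.natDegree = C (top.eval κ) := by
    intro κ
    rw [BO_coeff_fib, eval_finsetSum, map_sum]
    refine Finset.sum_congr rfl fun j hj => ?_
    rw [Finset.mem_range] at hj
    have h1 : ((f.coeff j).coeff (f.natDegree - j)).natDegree = 0 := by
      by_cases h2 : (f.coeff j).coeff (f.natDegree - j) = 0
      · rw [h2, natDegree_zero]
      · have h3 := hf.wt _ _ h2
        rw [show f.natDegree - j + j = f.natDegree by omega] at h3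
        omega
    rw [eval_mul, eval_C, eval_pow, eval_X, C_mul]
    conv_lhs => rw [eq_C_of_natDegree_eq_zero h1]
  have hcn : ∀ (κ : k) (n : ℕ), f.natDegree < n → (fib f κ 0).coeff n = 0 := by
    intro κ n hn
    rw [BO_coeff_fib]
    refine Finset.sum_eq_zero fun j hj => ?_
    rw [Finset.mem_range] at hj
    by_cases h2 : (f.coeff j).coeff (n - j) = 0
    · rw [h2, zero_mul]
    · exfalso
      have h3 := hf.wt _ _ h2
      rw [show n - j + j = n by omega] at h3
      have h4 : d * f.natDegree < d * n := (Nat.mul_lt_mul_left (by omega)).2 hn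
      omega
  have hcB : ∀ (κ : k) (n : ℕ), ((fib f κ 0).coeff n).natDegree ≤ d * f.natDegree := by
    intro κ n
    rw [BO_coeff_fib]
    refine natDegree_sum_le_of_forall_le _ _ fun j hj => ?_
    refine (natDegree_mul_C_le _ _).trans ?_
    by_cases h2 : (f.coeff j).coeff (n - j) = 0
    · rw [h2, natDegree_zero]
      omega
    · have h3 := hf.wt _ _ h2
      omega
  refine ((δ * top).roots.toFinset.finite_toSet).subset ?_
  intro κ hκ
  rw [Finset.mem_coe, Multiset.mem_toFinset, mem_roots (mul_ne_zero hδ htop), IsRoot.def, eval_mul]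
  by_contra hne
  apply hκ
  have hδκ : δ.eval κ ≠ 0 := fun h => hne (by rw [h, zero_mul])
  have htκ : top.eval κ ≠ 0 := fun h => hne (by rw [h, mul_zero])
  have hnd : (fib f κ 0).natDegree = f.natDegree := by
    refine le_antisymm ?_ ?_
    · rw [natDegree_le_iff_coeff_eq_zero]
      exact hcn κ
    · refine le_natDegree_of_ne_zero ?_
      rw [hcr κ]
      exact C_ne_zero.2 htκ
  have hlc : IsUnit (fib f κ 0).leadingCoeff := by
    rw [leadingCoeff, hnd, hcr κ]
    exact isUnit_C.2 (isUnit_iff_ne_zero.2 htκ)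
  have hF0 : fib f κ 0 ≠ 0 := by
    intro h0
    rw [h0, leadingCoeff_zero] at hlc
    exact not_isUnit_zero hlc
  have htwo := hf.two
  -- a factor of smaller degree does not vanish on the branch
  have key : ∀ G H : k[X][X], fib f κ 0 = G * H → ¬ IsUnit G → ¬ IsUnit H →
      BO_chi (BO_sp κ x) G ≠ 0 := by
    intro G H hGH hG hH h0
    have h1 : G.natDegree < f.natDegree := by
      rw [← hnd]
      exact BO_factor hGH hlc hG hH
    have h2 : ∀ n, (G.coeff n).natDegree ≤ d * f.natDegree :=
      BO_inner_deg hF0 (hcB κ) ⟨H, hGH⟩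
    rw [BO_chi_sum _ G h1 h2] at h0
    have h3 := hspec κ hδκ (fun i => (G.coeff i.2).coeff i.1) (by
      rw [← h0]
      refine Finset.sum_congr rfl fun i _ => ?_
      rw [map_mul, map_pow, map_pow]
      simp [BO_sp])
    have h4 : G = 0 := by
      ext b a
      rw [coeff_zero, coeff_zero]
      by_cases hb : b < f.natDegree
      · by_cases ha : a < d * f.natDegree + 1
        · exact congrFun h3 (⟨a, ha⟩, ⟨b, hb⟩)
        · exact coeff_eq_zero_of_natDegree_lt (lt_of_le_of_lt (h2 b) (by omega))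
      · rw [coeff_eq_zero_of_natDegree_lt (lt_of_lt_of_le h1 (by omega)), coeff_zero]
    rw [h4, zero_mul] at hGH
    exact hF0 hGH
  constructor
  · intro hu
    have h1 := natDegree_eq_zero_of_isUnit hu
    omega
  · intro G H hGH
    by_contra hcon
    rw [not_or] at hcon
    have h1 : BO_chi (BO_sp κ x) (fib f κ 0) = 0 := by
      rw [← BO_sp_fib, hx, map_zero]
    rw [hGH, map_mul] at h1
    rcases mul_eq_zero.1 h1 with h2 | h2
    · exact key G H hGH hcon.1 hcon.2 h2
    · exact key H G (by rw [hGH, mul_comm]) hcon.2 hcon.1 h2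

end MPb197b4P
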