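import Pool.Agent.Lib.MP_b197b4_ntP.Bert3

/-!
# MP_b197b4_nt: the good members of the pencil through a split set

`f : k[X][X][X]` is a polynomial in `x, y, z` (innermost variable `x`, outermost variable `z`).
-/

set_option autoImplicit false

namespace MPb197b4P.Bert

open Polynomial

variable {k : Type*} [Field k]

theorem Wt3_of_wt {f : k[X][X][X]} {r d e : ℕ} (hd : 1 ≤ d) (hde : d ≤ e)
    (hwt : ∀ i j, (f.coeff j).coeff i ≠ 0 →
      ((f.coeff j).coeff i).natDegree + d * (i + j) ≤ d * r) : Wt3 e r f := by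
  constructor
  · intro i j hij
    by_cases h0 : (f.coeff j).coeff i = 0
    · rw [h0]
      simp
    · have h1 := hwt i j h0
      have h2 : d * (r - (i + j)) + d * (i + j) = d * r := by
        rw [← mul_add, Nat.sub_add_cancel hij]
      have h3 : d * (r - (i + j)) ≤ e * (r - (i + j)) := Nat.mul_le_mul_right _ hde
      lia
  · intro i j hij
    by_contra h0
    have h1 := hwt i j h0
    have h2 : d * r < d * (i + j) := Nat.mul_lt_mul_of_pos_left hij hd
    lia

/-- the chain rule for `f (x, y, κ y + α)` -/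
theorem dY_fib (f : k[X][X][X]) (κ : k) (α : k[X]) (a b c : k) (hc : c = α.eval a + κ * b) :
    ((derivative (f.eval (C (C κ) * X + C α))).eval (C b)).eval a =
      ((derivative (f.eval (C (C c)))).eval (C b)).eval a +
        κ * (((derivative f).eval (C (C c))).eval (C b)).eval a := by
  have hg : (((C (C κ) * X + C α : k[X][X])).eval (C b)).eval a = c := by
    rw [hc]
    simp
    ring
  have hg' : derivative (C (C κ) * X + C α : k[X][X]) = C (C κ) := by
    simp
  generalize (C (C κ) * X + C α : k[X][X]) = g at hg hg'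
  induction f using Polynomial.induction_on' with
  | add p q hp hq =>
    simp only [eval_add, map_add] at hp hq ⊢
    rw [hp, hq]
    ring
  | monomial j p =>
    rw [eval_monomial, eval_monomial, derivative_monomial, eval_monomial]
    rw [derivative_mul, derivative_pow, hg', derivative_mul, derivative_pow, derivative_C]
    simp only [eval_add, eval_mul, eval_pow, eval_C, hg, mul_zero, add_zero, eval_natCast]
    ring

/-- all but one of the members through a point at which the `y`- or the `z`-derivative of `f` does not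
vanish are unramified there -/
theorem unramified_fib (f : k[X][X][X]) {a b c : k}
    (h : ((derivative (f.eval (C (C c)))).eval (C b)).eval a ≠ 0 ∨
      (((derivative f).eval (C (C c))).eval (C b)).eval a ≠ 0) :
    ∃ κ₀ : k, ∀ κ ≠ κ₀, ∀ α : k[X], c = α.eval a + κ * b →
      ((derivative (f.eval (C (C κ) * X + C α))).eval (C b)).eval a ≠ 0 := by
  set A := ((derivative (f.eval (C (C c)))).eval (C b)).eval a with hA
  set B := (((derivative f).eval (C (C c))).eval (C b)).eval a with hB
  refine ⟨-A / B, fun κ hκ α hc => ?_⟩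
  rw [dY_fib f κ α a b c hc, ← hA, ← hB]
  intro h1
  by_cases hB0 : B = 0
  · rw [hB0, mul_zero, add_zero] at h1
    rcases h with h | h
    · exact h h1
    · exact h hB0
  · refine hκ ?_
    rw [eq_div_iff hB0]
    exact (neg_eq_of_add_eq_zero_right h1).symm

theorem natDegree_cut_le {f : k[X][X][X]} {r m : ℕ} (hm : 0 < m) (hW : Wt3 m r f)
    {γ ρ : k[X]} (hγ : γ.natDegree ≤ m) (hρ : ρ.natDegree ≤ m) :
    ((f.eval (C ρ)).eval γ).natDegree ≤ m * r := by
  have hG := GD_Th hm hγ hρ hW
  have h1 : (((f.eval (C ρ)).eval γ).map (C : k →+* k[X])).natDegree =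
      ((f.eval (C ρ)).eval γ).natDegree := natDegree_map_eq_of_injective (C_injective) _
  rw [← h1, ← Th_at0]
  exact natDegree_map_le.trans hG.deg

theorem coeff_fib {f : k[X][X][X]} {r e : ℕ} (hdeg : f.natDegree = r) (hW : Wt3 e r f) (κ : k)
    (α : k[X]) : (f.eval (C (C κ) * X + C α)).natDegree ≤ r ∧
      (f.eval (C (C κ) * X + C α)).coeff r =
        C (∑ j ∈ Finset.range (r + 1), ((f.coeff j).coeff (r - j)).coeff 0 * κ ^ j) := by
  have hlin : (C (C κ) * X + C α : k[X][X]).natDegree ≤ 1 := by
    refine (natDegree_add_le _ _).trans (max_le ?_ ?_)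
    · refine natDegree_mul_le.trans ?_
      rw [natDegree_C, zero_add]
      exact natDegree_X_le
    · simp
  have hlc : (C (C κ) * X + C α : k[X][X]).coeff 1 = C κ := by
    rw [coeff_add, coeff_C_mul, coeff_X_one, mul_one, coeff_C, if_neg one_ne_zero, add_zero]
  have hcj : ∀ j, j ≤ r → (f.coeff j).natDegree ≤ r - j := by
    intro j hj
    rw [natDegree_le_iff_coeff_eq_zero]
    intro i hi
    exact hW.zero i j (by lia)
  have hpow : ∀ j, ((C (C κ) * X + C α : k[X][X]) ^ j).natDegree ≤ j := fun j =>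
    (natDegree_pow_le_of_le j hlin).trans (by lia)
  rw [eval_eq_sum_range, hdeg]
  constructor
  · refine natDegree_sum_le_of_forall_le _ _ fun j hj => ?_
    rw [Finset.mem_range] at hj
    refine natDegree_mul_le.trans ?_
    have h1 := hcj j (by lia)
    have h2 := hpow j
    lia
  · rw [finsetSum_coeff, map_sum]
    refine Finset.sum_congr rfl fun j hj => ?_
    rw [Finset.mem_range] at hj
    have h1 := coeff_mul_add_eq_of_natDegree_le (hcj j (by lia)) (hpow j)
    have h2 : r - j + j = r := by lia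
    rw [h2] at h1
    have h3 : ((C (C κ) * X + C α : k[X][X]) ^ j).coeff j = C κ ^ j := by
      have h4 := coeff_pow_of_natDegree_le (m := j) hlin
      rw [mul_one, hlc] at h4
      exact h4
    have h5 : ((f.coeff j).coeff (r - j)) = C (((f.coeff j).coeff (r - j)).coeff 0) := by
      refine eq_C_of_natDegree_le_zero ?_
      refine (hW.deg (r - j) j (by lia)).trans ?_
      rw [h2, Nat.sub_self, mul_zero]
    rw [h1, h3, h5, coeff_C_zero, ← C_pow, ← C_mul]

/-- all but boundedly many members of the pencil through a split set are good -/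
theorem good_pencil {f : k[X][X][X]} {r d e : ℕ} (hmonic : f.Monic) (hdeg : f.natDegree = r)
    (hirr : Irreducible f) (hr : 1 ≤ r) (hd : 1 ≤ d) (hde : d < e)
    (hwt : ∀ i j, (f.coeff j).coeff i ≠ 0 →
      ((f.coeff j).coeff i).natDegree + d * (i + j) ≤ d * r)
    {γ ρ : k[X]} (hγ : γ.natDegree ≤ e) (hρ : ρ.natDegree ≤ e)
    (hN : ∃ a : Fin (r * e) → k, Function.Injective a ∧
      ∀ i, ((f.eval (C ρ)).eval γ).eval (a i) = 0)
    (hN0 : (f.eval (C ρ)).eval γ ≠ 0) :
    ∃ Bad : Finset k, Bad.card ≤ 2 ^ (r * e) * (2 * r) + r + 1 ∧ ∀ κ ∉ Bad,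
      Irreducible (f.eval (C (C κ) * X + C (ρ - C κ * γ))) ∧
      (f.eval (C (C κ) * X + C (ρ - C κ * γ))).natDegree = r ∧
      (ρ - C κ * γ).coeff e ≠ 0 := by
  classical
  obtain ⟨a, ha, hroot⟩ := hN
  have hW : Wt3 e r f := Wt3_of_wt hd hde.le hwt
  have hW' : Wt3 (e - 1) r f := Wt3_of_wt hd (by lia) hwt
  have hcomm : e * r = r * e := mul_comm _ _
  obtain ⟨B1, hB1, hB1c⟩ := bertini_pencil' (m := e) (D := r) (by lia) hr hW hirr hγ hρ
    (fun i => a (Fin.cast hcomm i)) (fun i j h => by
      have := ha h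
      exact Fin.cast_injective hcomm this) (fun i => hroot _) hN0
  set τ : k[X] := ∑ j ∈ Finset.range (r + 1), C (((f.coeff j).coeff (r - j)).coeff 0) * X ^ j
    with hτ
  have hτ0 : τ ≠ 0 := by
    intro h
    have h1 := congrArg (fun p => p.coeff r) h
    simp only [hτ, finsetSum_coeff, coeff_C_mul_X_pow, coeff_zero] at h1
    rw [Finset.sum_ite_eq, if_pos (Finset.mem_range.2 (by lia)), Nat.sub_self] at h1
    have h2 : f.coeff r = 1 := by
      rw [← hdeg]
      exact hmonic.coeff_natDegree
    rw [h2, coeff_one_zero, coeff_one_zero] at h1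
    exact one_ne_zero h1
  have hτd : τ.natDegree ≤ r := by
    refine natDegree_sum_le_of_forall_le _ _ fun j hj => ?_
    rw [Finset.mem_range] at hj
    exact (natDegree_C_mul_X_pow_le _ _).trans (by lia)
  have hτe : ∀ κ : k, τ.eval κ =
      ∑ j ∈ Finset.range (r + 1), ((f.coeff j).coeff (r - j)).coeff 0 * κ ^ j := by
    intro κ
    rw [hτ, eval_finsetSum]
    simp
  have hlead : γ.coeff e ≠ 0 ∨ ρ.coeff e ≠ 0 := by
    by_contra h
    push Not at h
    have h1 : γ.natDegree ≤ e - 1 := by
      rw [natDegree_le_iff_coeff_eq_zero]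
      intro N hN'
      rcases eq_or_lt_of_le (show e ≤ N by lia) with h2 | h2
      · rw [← h2]
        exact h.1
      · exact coeff_eq_zero_of_natDegree_lt (by lia)
    have h2 : ρ.natDegree ≤ e - 1 := by
      rw [natDegree_le_iff_coeff_eq_zero]
      intro N hN'
      rcases eq_or_lt_of_le (show e ≤ N by lia) with h2 | h2
      · rw [← h2]
        exact h.2
      · exact coeff_eq_zero_of_natDegree_lt (by lia)
    have h3 := natDegree_cut_le (m := e - 1) (by lia) hW' h1 h2
    have h4 : (∏ i, (X - C (a i))) ∣ (f.eval (C ρ)).eval γ :=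
      prod_dvd Finset.univ a _ (fun i _ => hroot i)
        fun i _ j _ hij => (sub_ne_zero.2 fun h => hij (ha h)).isUnit
    have h5 := natDegree_le_of_dvd h4 hN0
    rw [natDegree_prod', Finset.card_univ, Fintype.card_fin] at h5
    have h6 : (e - 1) * r < r * e := by
      rw [mul_comm r e]
      exact Nat.mul_lt_mul_of_pos_right (by lia) hr
    lia
  refine ⟨B1 ∪ τ.roots.toFinset ∪ {ρ.coeff e / γ.coeff e}, ?_, fun κ hκ => ?_⟩
  · refine (Finset.card_union_le _ _).trans ?_
    rw [Finset.card_singleton]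
    refine Nat.add_le_add_right ((Finset.card_union_le _ _).trans (Nat.add_le_add ?_ ?_)) _
    · rw [hcomm] at hB1
      exact hB1
    · exact (Multiset.toFinset_card_le _).trans ((card_roots' _).trans hτd)
  · rw [Finset.mem_union, Finset.mem_union, not_or, not_or, Finset.mem_singleton] at hκ
    obtain ⟨⟨h1, h2⟩, h3⟩ := hκ
    have h4 := hB1c κ h1
    rw [add_comm (C (ρ - C κ * γ)) (C (C κ) * X)] at h4
    refine ⟨h4, ?_, ?_⟩
    · have h5 := coeff_fib hdeg hW κ (ρ - C κ * γ)
      refine le_antisymm h5.1 (le_natDegree_of_ne_zero ?_)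
      rw [h5.2, ← hτe]
      intro h6
      refine h2 (Multiset.mem_toFinset.2 ((mem_roots hτ0).2 ?_))
      exact C_eq_zero.1 h6
    · rw [coeff_sub, coeff_C_mul]
      intro h6
      by_cases h7 : γ.coeff e = 0
      · rw [h7, mul_zero, sub_zero] at h6
        rcases hlead with h8 | h8
        · exact h8 h7
        · exact h8 h6
      · refine h3 ?_
        rw [eq_div_iff h7]
        exact (sub_eq_zero.1 h6).symm

/-- the same with a separable polynomial over an algebraically closed field -/
theorem good_pencil_sep [IsAlgClosed k] {f : k[X][X][X]} {r d e : ℕ} (hmonic : f.Monic)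
    (hdeg : f.natDegree = r) (hirr : Irreducible f) (hr : 1 ≤ r) (hd : 1 ≤ d) (hde : d < e)
    (hwt : ∀ i j, (f.coeff j).coeff i ≠ 0 →
      ((f.coeff j).coeff i).natDegree + d * (i + j) ≤ d * r)
    {γ ρ : k[X]} (hγ : γ.natDegree ≤ e) (hρ : ρ.natDegree ≤ e)
    (hnum : ((f.eval (C ρ)).eval γ).natDegree = r * e)
    (hsep : ((f.eval (C ρ)).eval γ).Separable) :
    ∃ Bad : Finset k, Bad.card ≤ 2 ^ (r * e) * (2 * r) + r + 1 ∧ ∀ κ ∉ Bad,
      Irreducible (f.eval (C (C κ) * X + C (ρ - C κ * γ))) ∧
      (f.eval (C (C κ) * X + C (ρ - C κ * γ))).natDegree = r ∧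
      (ρ - C κ * γ).coeff e ≠ 0 := by
  classical
  have hN0 : (f.eval (C ρ)).eval γ ≠ 0 := hsep.ne_zero
  have hcard : ((f.eval (C ρ)).eval γ).roots.toFinset.card = r * e := by
    rw [Multiset.toFinset_card_of_nodup (nodup_roots hsep),
      splits_iff_card_roots.1 (IsAlgClosed.splits _), hnum]
  let E : Fin (r * e) ≃ ((f.eval (C ρ)).eval γ).roots.toFinset :=
    (Finset.equivFinOfCardEq hcard).symm
  refine good_pencil hmonic hdeg hirr hr hd hde hwt hγ hρ ⟨fun i => (E i : k),
    fun i j h => E.injective (Subtype.ext h), fun i => ?_⟩ hN0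
  have h1 := (E i).2
  rw [Multiset.mem_toFinset, mem_roots hN0] at h1
  exact h1.eq_zero

end MPb197b4P.Bert
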