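import Pool.Agent.Lib.MP_b197b4_ntP.MonoB

set_option autoImplicit false

/-!
# Mono: a transposition in the monodromy; the full symmetric group
-/

namespace MPb197b4P

open Polynomial

section General

variable {F : Type} [Field F]

/-- Transitive, prime degree and a transposition: the full symmetric group. -/
theorem gal_full_of_swap {p : F[X]} (hirr : Irreducible p) (hsep : p.Separable)
    (hp : p.natDegree.Prime) (E : Type) [Field E] [Algebra F E]
    [hs : Fact ((p.map (algebraMap F E)).Splits)] (σ : E ≃ₐ[F] E) (x y : E) (hx : x ∈ p.rootSet E)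
    (hy : y ∈ p.rootSet E) (hxy : x ≠ y) (hσx : σ x = y) (hσy : σ y = x)
    (hσ : ∀ z ∈ p.rootSet E, z ≠ x → z ≠ y → σ z = z) :
    Nat.card p.Gal = (p.natDegree).factorial := by
  classical
  have hcard : Fintype.card (p.rootSet E) = p.natDegree := card_rootSet_eq_natDegree hsep hs.out
  have hinj := Gal.galActionHom_injective p E
  have htop : (Gal.galActionHom p E).range = ⊤ := by
    refine Equiv.Perm.subgroup_eq_top_of_swap_mem (τ := Equiv.swap ⟨x, hx⟩ ⟨y, hy⟩) ?_ ?_ ?_ ?_
    · rw [hcard]; exact hp
    · have := Gal.galAction_isPretransitive p E hirr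
      have h1 : Nat.card (p.rootSet E) ∣ Nat.card p.Gal := by
        have h2 := MulAction.card_orbit_mul_card_stabilizer_eq_card_group p.Gal
          (⟨x, hx⟩ : p.rootSet E)
        rw [← Nat.card_eq_fintype_card, ← Nat.card_eq_fintype_card, ← Nat.card_eq_fintype_card] at h2
        rw [MulAction.orbit_eq_univ, Nat.card_univ] at h2
        exact ⟨_, h2.symm⟩
      have key : ∀ inst : Fintype (Gal.galActionHom p E).range,
          Fintype.card (p.rootSet E) ∣ @Fintype.card _ inst := by
        intro inst
        rw [← @Nat.card_eq_fintype_card _ inst, ← Nat.card_eq_fintype_card]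
        rwa [Nat.card_congr (MonoidHom.ofInjective hinj).toEquiv.symm]
      exact key _
    · refine ⟨Gal.restrict p E σ, ?_⟩
      ext z
      rw [Gal.galActionHom_restrict]
      by_cases h1 : z = ⟨x, hx⟩
      · subst h1
        rw [Equiv.swap_apply_left]
        exact hσx
      by_cases h2 : z = ⟨y, hy⟩
      · subst h2
        rw [Equiv.swap_apply_right]
        exact hσy
      · rw [Equiv.swap_apply_of_ne_of_ne h1 h2]
        exact hσ z z.2 (fun h => h1 (Subtype.ext h)) (fun h => h2 (Subtype.ext h))
    · exact ⟨_, _, fun h => hxy (congrArg Subtype.val h), rfl⟩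
  have h3 : Nat.card p.Gal = Nat.card (Equiv.Perm (p.rootSet E)) := by
    rw [Nat.card_congr (MonoidHom.ofInjective hinj).toEquiv, htop]
    exact Nat.card_congr (Subgroup.topEquiv).toEquiv
  rw [h3, Nat.card_eq_fintype_card, Fintype.card_perm, hcard]

theorem gal_surj_of_card {p : F[X]} (hsep : p.Separable) (E : Type) [Field E] [Algebra F E]
    [hs : Fact ((p.map (algebraMap F E)).Splits)] (h : Nat.card p.Gal = (p.natDegree).factorial) :
    Function.Surjective (Gal.galActionHom p E) := by
  classical
  have hcard : Fintype.card (p.rootSet E) = p.natDegree := card_rootSet_eq_natDegree hsep hs.out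
  have hinj := Gal.galActionHom_injective p E
  have h2 : Fintype.card p.Gal = Fintype.card (Equiv.Perm (p.rootSet E)) := by
    rw [Fintype.card_perm, hcard, ← h, Nat.card_eq_fintype_card]
  exact ((Fintype.bijective_iff_injective_and_card _).2 ⟨hinj, h2⟩).2

end General

section Main

/-- **Theorem M.** A pencil of prime degree with geometrically irreducible total space, one of whose
members is simply tangent at one point and transversal elsewhere, has the full symmetric group as
monodromy (in every characteristic). -/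
theorem monodromy {k : Type} [Field k] [IsAlgClosed k] {F : Type} [Field F] [Algebra k[X] F]
    [IsFractionRing k[X] F] (R : k[X][X]) (hm : R.Monic) (hp : R.natDegree.Prime)
    (hirr : Irreducible (R.map (algebraMap k[X] F)))
    (hsep : (R.map (algebraMap k[X] F)).Separable) (a : k) (S : k[X]) (hS : S.Separable)
    (hSa : S.eval a ≠ 0) (h0 : R.map (evalRingHom (0 : k)) = (X - C a) ^ 2 * S)
    (h1 : (R.eval (C a)).coeff 1 ≠ 0) :
    Nat.card (R.map (algebraMap k[X] F)).Gal = R.natDegree.factorial := by
  classical
  set ι : k[X] →+* PowerSeries k := Polynomial.coeToPowerSeries.ringHom with hι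
  have hιinj : Function.Injective ι := Polynomial.coe_injective k
  let K := FractionRing (PowerSeries k)
  let E := AlgebraicClosure K
  have hjinj : Function.Injective ((algebraMap (PowerSeries k) K).comp ι) :=
    (IsFractionRing.injective (PowerSeries k) K).comp hιinj
  let j : F →+* K := IsFractionRing.lift hjinj
  have hj : ∀ r : k[X], j (algebraMap k[X] F r) = algebraMap (PowerSeries k) K (ι r) := fun r =>
    IsFractionRing.lift_algebraMap hjinj r
  letI algFE : Algebra F E := ((algebraMap K E).comp j).toAlgebra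
  have hFE : ∀ r : F, algebraMap F E r = algebraMap K E (j r) := fun r => rfl
  set p : F[X] := R.map (algebraMap k[X] F) with hpdef
  -- the power series version
  set Rh : (PowerSeries k)[X] := R.map ι with hRh
  have hRhm : Rh.Monic := hm.map _
  have hcomp : (PowerSeries.constantCoeff (R := k)).comp ι = evalRingHom (0 : k) := by
    ext r
    · simp [hι]
    · simp [hι]
  have hRh0 : Rh.map (PowerSeries.constantCoeff (R := k)) = (X - C a) ^ 2 * S := by
    rw [hRh, Polynomial.map_map, hcomp, h0]
  have hRh1 : PowerSeries.coeff 1 (Rh.eval (PowerSeries.C a)) ≠ 0 := by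
    have h2 : Rh.eval (PowerSeries.C a) = ι (R.eval (C a)) := by
      rw [hRh, eval_map, ← eval₂_at_apply]
      simp [hι]
    rw [h2]
    simpa [hι] using h1
  obtain ⟨Q, P, T, hQm, hQd, hQ0, hQ1, hPT, hRPQ⟩ := split_off Rh hRhm a S hS hSa hRh0 hRh1
  -- the ring homomorphism to `E`
  set e : PowerSeries k →+* E := (algebraMap K E).comp (algebraMap (PowerSeries k) K) with he
  have hpE : p.map (algebraMap F E) = P.map e * Q.map e := by
    have h2 : (algebraMap F E).comp (algebraMap k[X] F) = e.comp ι := by
      refine RingHom.ext fun r => ?_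
      simp only [RingHom.comp_apply, hFE, hj, he]
    rw [← Polynomial.map_mul, ← hRPQ, hRh, Polynomial.map_map, Polynomial.map_map, h2]
  have hpsE : (p.map (algebraMap F E)).Separable := hsep.map
  have hsplit : Fact ((p.map (algebraMap F E)).Splits) := ⟨IsAlgClosed.splits _⟩
  have hQEm : (Q.map e).Monic := hQm.map _
  have hQEd : (Q.map e).natDegree = 2 := by rw [hQm.natDegree_map, hQd]
  obtain ⟨ρ, hρ⟩ := IsAlgClosed.exists_root (Q.map e)
    (by rw [degree_eq_natDegree hQEm.ne_zero, hQEd]; decide)
  set ρ' : E := -(Q.map e).coeff 1 - ρ with hρ'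
  have hroots : ∀ z : E, (Q.map e).eval z = (z - ρ) * (z - ρ') := by
    intro z
    have h2 : ρ ^ 2 + (Q.map e).coeff 1 * ρ + (Q.map e).coeff 0 = 0 := by
      rw [← eval_quad hQEm hQEd]; exact hρ
    rw [eval_quad hQEm hQEd, hρ']
    linear_combination h2
  have hQfac : Q.map e = (X - C ρ) * (X - C ρ') := by
    refine Polynomial.funext fun z => ?_
    rw [hroots]
    simp
  have hne : ρ ≠ ρ' := by
    intro h
    rw [← h] at hQfac
    have h2 : (X - C ρ) * (X - C ρ) ∣ p.map (algebraMap F E) := by
      rw [hpE, hQfac]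
      exact dvd_mul_left _ _
    exact not_isUnit_X_sub_C ρ (hpsE.squarefree _ h2)
  -- irreducibility over `K`
  set QK : K[X] := Q.map (algebraMap (PowerSeries k) K) with hQK
  have hQKm : QK.Monic := hQm.map _
  have hQKd : QK.natDegree = 2 := by rw [hQK, hQm.natDegree_map, hQd]
  have hQKirr : Irreducible QK := by
    refine irreducible_of_degree_le_three_of_not_isRoot ?_ ?_
    · rw [hQKd]; decide
    · intro x hx
      exact eis_no_root hQm hQd a hQ0 hQ1 x hx
  have hQKE : QK.map (algebraMap K E) = Q.map e := by rw [hQK, Polynomial.map_map]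
  have hmin : ∀ z : E, (Q.map e).eval z = 0 → minpoly K z = QK := by
    intro z hz
    refine (minpoly.eq_of_irreducible_of_monic hQKirr ?_ hQKm).symm
    rw [aeval_def, ← eval_map, hQKE, hz]
  have hz1 : (Q.map e).eval ρ = 0 := hρ
  have hz2 : (Q.map e).eval ρ' = 0 := by rw [hroots]; simp
  obtain ⟨σ, hσ⟩ := (Normal.minpoly_eq_iff_mem_orbit (F := K) E).1 ((hmin ρ' hz2).trans (hmin ρ hz1).symm)
  have hσ1 : σ ρ = ρ' := hσ
  have hσroot : ∀ z : E, (Q.map e).eval z = 0 → (Q.map e).eval (σ z) = 0 := by
    intro z hz
    rw [← hQKE, eval_map, ← aeval_def] at hz ⊢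
    rw [aeval_algHom_apply σ z QK, hz, map_zero]
  have hσ2 : σ ρ' = ρ := by
    have h2 := hσroot ρ' hz2
    rw [hroots, mul_eq_zero, sub_eq_zero, sub_eq_zero] at h2
    rcases h2 with h2 | h2
    · exact h2
    · exact absurd (σ.injective (hσ1.trans h2.symm)) hne
  let σF : E ≃ₐ[F] E := AlgEquiv.ofRingEquiv (f := (σ : E ≃+* E)) (by
    intro r
    rw [hFE]
    exact σ.commutes _)
  have hσF : ∀ z, σF z = σ z := fun z => rfl
  have hmem : ∀ z : E, z ∈ p.rootSet E ↔ (P.map e).eval z * (Q.map e).eval z = 0 := by
    intro z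
    rw [mem_rootSet_of_ne (hm.map _).ne_zero, aeval_def, ← eval_map, hpE, eval_mul]
  have hcard := gal_full_of_swap hirr hsep (by rw [hpdef, hm.natDegree_map]; exact hp) E σF ρ ρ'
    ((hmem ρ).2 (by rw [hz1, mul_zero])) ((hmem ρ').2 (by rw [hz2, mul_zero])) hne
    (by rw [hσF]; exact hσ1) (by rw [hσF]; exact hσ2) (by
      intro z hz hz1 hz2
      rw [hmem, mul_eq_zero, hroots, mul_eq_zero, sub_eq_zero, sub_eq_zero] at hz
      rcases hz with hz | hz | hz
      · rw [hPT, Polynomial.map_multiset_prod, eval_multiset_prod, Multiset.prod_eq_zero_iff] at hz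
        simp only [Multiset.map_map, Multiset.mem_map, Function.comp_apply, Polynomial.map_sub,
          map_X, map_C, eval_sub, eval_X, eval_C] at hz
        obtain ⟨t, _, ht⟩ := hz
        rw [sub_eq_zero] at ht
        rw [hσF, ht]
        exact σ.commutes _
      · exact absurd hz hz1
      · exact absurd hz hz2)
  rw [hcard, hpdef, hm.natDegree_map]

end Main

end MPb197b4P
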