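import Mathlib

/-!
# MP_b197b4_nt: Bertini for the pencil through a split set, by Hensel and counting

`F` is a polynomial in `X` over `k[L][T]` (`L` the parameter of the pencil), monic in `X`, the
coefficient of `T ^ j` of degree at most `j` in `L`; at `T = 0` it is a product of distinct linear
factors. If `F` is irreducible then all but boundedly many specialisations `L = c` are
irreducible in `k[T][X]`.
-/

set_option autoImplicit false

namespace MPb197b4P.Bert

open Polynomial

section general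

variable {A : Type*} [CommRing A]

theorem prod_dvd {ι : Type*} (I : Finset ι) (x : ι → A) (F : A[X])
    (hx : ∀ i ∈ I, F.eval (x i) = 0)
    (hu : ∀ i ∈ I, ∀ j ∈ I, i ≠ j → IsUnit (x i - x j)) : (∏ i ∈ I, (X - C (x i))) ∣ F := by
  refine Finset.prod_dvd_of_coprime ?_ ?_
  · intro i hi j hj hij
    exact isCoprime_X_sub_C_of_isUnit_sub (hu i hi j hj hij)
  · intro i hi
    exact dvd_iff_isRoot.2 (hx i hi)

theorem natDegree_prod' [Nontrivial A] {ι : Type*} (I : Finset ι) (x : ι → A) :
    (∏ i ∈ I, (X - C (x i))).natDegree = I.card := by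
  rw [natDegree_prod_of_monic _ _ fun i _ => monic_X_sub_C (x i)]
  simp

theorem monic_prod' {ι : Type*} (I : Finset ι) (x : ι → A) :
    (∏ i ∈ I, (X - C (x i))).Monic := monic_prod_of_monic _ _ fun i _ => monic_X_sub_C (x i)

/-- the quotient by `T ^ N` -/
noncomputable abbrev red (A : Type*) [CommRing A] (N : ℕ) :
    A[X] →+* A[X] ⧸ (Ideal.span {(X : A[X]) ^ N}) := Ideal.Quotient.mk _

theorem red_eq_iff {N : ℕ} (y z : A[X]) : red A N y = red A N z ↔
    ∀ j < N, y.coeff j = z.coeff j := by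
  rw [Ideal.Quotient.eq, Ideal.mem_span_singleton, X_pow_dvd_iff]
  refine forall_congr' fun j => forall_congr' fun _ => ?_
  rw [coeff_sub, sub_eq_zero]

theorem red_eq_zero_iff {N : ℕ} (y : A[X]) : red A N y = 0 ↔ X ^ N ∣ y := by
  rw [Ideal.Quotient.eq_zero_iff_mem, Ideal.mem_span_singleton]

theorem isUnit_red {N : ℕ} (y : A[X]) (hy : IsUnit (y.coeff 0)) : IsUnit (red A N y) := by
  obtain ⟨u, hu⟩ := hy
  have h1 : IsCoprime y (X : A[X]) := by
    refine ⟨C (u⁻¹ : Aˣ).val, -(C (u⁻¹ : Aˣ).val * y.divX), ?_⟩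
    have h2 : y = y.divX * X + C (u : A) := by
      rw [hu]
      exact (divX_mul_X_add y).symm
    have h3 : C (u⁻¹ : Aˣ).val * C (u : A) = (1 : A[X]) := by
      rw [← C_mul, Units.inv_mul, C_1]
    calc C (u⁻¹ : Aˣ).val * y + -(C (u⁻¹ : Aˣ).val * y.divX) * X
        = C (u⁻¹ : Aˣ).val * (y.divX * X + C (u : A)) + -(C (u⁻¹ : Aˣ).val * y.divX) * X := by
          rw [← h2]
      _ = C (u⁻¹ : Aˣ).val * C (u : A) := by ring
      _ = 1 := h3
  obtain ⟨a, b, hab⟩ := h1.pow_right (n := N)
  have h4 : red A N a * red A N y = 1 := by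
    have h5 := congrArg (red A N) hab
    rw [map_add, map_mul, map_mul, map_one, (red_eq_zero_iff (X ^ N)).2 dvd_rfl, mul_zero,
      add_zero] at h5
    exact h5
  exact IsUnit.of_mul_eq_one _ (by rw [mul_comm]; exact h4)

theorem nontrivial_red [Nontrivial A] {N : ℕ} (hN : 0 < N) :
    Nontrivial (A[X] ⧸ (Ideal.span {(X : A[X]) ^ N})) := by
  refine ⟨⟨red A N 1, red A N 0, fun h => ?_⟩⟩
  have := (red_eq_iff (N := N) (1 : A[X]) 0).1 h 0 hN
  rw [coeff_one_zero, coeff_zero] at this
  exact one_ne_zero this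

end general

section weights

variable {k : Type*} [Field k]

/-- the coefficient of `T ^ j` has degree at most `j` -/
def W (k : Type*) [Field k] : Subring k[X][X] where
  carrier := {y | ∀ j, (y.coeff j).natDegree ≤ j}
  mul_mem' := by
    intro a b ha hb j
    rw [coeff_mul]
    refine natDegree_sum_le_of_forall_le _ _ fun p hp => ?_
    have h1 := Finset.HasAntidiagonal.mem_antidiagonal.1 hp
    have h2 := natDegree_mul_le (p := a.coeff p.1) (q := b.coeff p.2)
    have h3 := ha p.1
    have h4 := hb p.2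
    lia
  one_mem' := by
    intro j
    rw [coeff_one]
    split_ifs <;> simp
  add_mem' := by
    intro a b ha hb j
    rw [coeff_add]
    exact (natDegree_add_le _ _).trans (max_le (ha j) (hb j))
  zero_mem' := by
    intro j
    simp
  neg_mem' := by
    intro a ha j
    rw [coeff_neg, natDegree_neg]
    exact ha j

theorem mem_W {y : k[X][X]} : y ∈ W k ↔ ∀ j, (y.coeff j).natDegree ≤ j := Iff.rfl

theorem mono_mem_W (c : k[X]) (N : ℕ) (hc : c.natDegree ≤ N) : C c * X ^ N ∈ W k := by
  rw [mem_W]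
  intro j
  rw [coeff_C_mul_X_pow]
  split_ifs with h
  · rw [h]
    exact hc
  · simp

theorem C_mem_W (c : k) : C (C c) ∈ W k := by
  have h := mono_mem_W (C c : k[X]) 0 (by simp)
  simpa using h

/-- all coefficients are in the subring -/
def CW (F : k[X][X][X]) : Prop := ∀ i, F.coeff i ∈ W k

theorem CW.mul {F G : k[X][X][X]} (hF : CW F) (hG : CW G) : CW (F * G) := by
  intro i
  rw [coeff_mul]
  exact Subring.sum_mem _ fun p _ => Subring.mul_mem _ (hF _) (hG _)

theorem CW_one : CW (1 : k[X][X][X]) := by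
  intro i
  rw [coeff_one]
  split_ifs
  · exact Subring.one_mem _
  · exact Subring.zero_mem _

theorem CW_lin {x : k[X][X]} (hx : x ∈ W k) : CW (X - C x) := by
  intro i
  rw [coeff_sub, coeff_X, coeff_C]
  refine Subring.sub_mem _ ?_ ?_
  · split_ifs
    · exact Subring.one_mem _
    · exact Subring.zero_mem _
  · split_ifs
    · exact hx
    · exact Subring.zero_mem _

theorem CW_prod {ι : Type*} (I : Finset ι) (x : ι → k[X][X]) (hx : ∀ i ∈ I, x i ∈ W k) :
    CW (∏ i ∈ I, (X - C (x i))) := by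
  classical
  induction I using Finset.induction_on with
  | empty =>
    rw [Finset.prod_empty]
    exact CW_one
  | insert a s ha ih =>
    rw [Finset.prod_insert ha]
    exact (CW_lin (hx a (Finset.mem_insert_self _ _))).mul
      (ih fun i hi => hx i (Finset.mem_insert_of_mem hi))

theorem CW.eval {F : k[X][X][X]} (hF : CW F) {x : k[X][X]} (hx : x ∈ W k) :
    F.eval x ∈ W k := by
  rw [eval_eq_sum_range]
  exact Subring.sum_mem _ fun i _ => Subring.mul_mem _ (hF i) (Subring.pow_mem _ hx i)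

/-- the value at `T = 0` -/
noncomputable abbrev at0 (A : Type*) [CommRing A] : A[X] →+* A := evalRingHom 0

theorem at0_apply {A : Type*} [CommRing A] (y : A[X]) : at0 A y = y.coeff 0 := by
  rw [coeff_zero_eq_eval_zero]
  rfl

/-- one root modulo `T ^ N` -/
theorem root_lift {n : ℕ} (F : k[X][X][X]) (hW : CW F) (a : Fin n → k)
    (ha : Function.Injective a) (h0 : F.map (at0 k[X]) = ∏ i, (X - C (C (a i)))) (i : Fin n)
    (N : ℕ) : ∃ x : k[X][X], x ∈ W k ∧ x.coeff 0 = C (a i) ∧ X ^ (N + 1) ∣ F.eval x := by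
  have hev : ∀ x : k[X][X], (F.eval x).coeff 0 = ∏ j, (x.coeff 0 - C (a j)) := by
    intro x
    rw [← at0_apply, ← eval_map_apply, h0, eval_prod, at0_apply]
    simp
  have hder : ∀ x : k[X][X], x.coeff 0 = C (a i) →
      (F.derivative.eval x).coeff 0 = C (∏ j ∈ Finset.univ.erase i, (a i - a j)) := by
    intro x hx
    rw [← at0_apply, ← eval_map_apply, ← derivative_map, h0, at0_apply, hx]
    rw [derivative_prod_finset]
    rw [eval_finsetSum, Finset.sum_eq_single i]
    · rw [derivative_X_sub_C, mul_one, eval_prod, map_prod]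
      simp
    · intro j _ hj
      rw [eval_mul, eval_prod, Finset.prod_eq_zero (Finset.mem_erase.2 ⟨hj.symm, Finset.mem_univ i⟩),
        zero_mul]
      simp
    · intro h
      exact absurd (Finset.mem_univ i) h
  set u : k := ∏ j ∈ Finset.univ.erase i, (a i - a j) with hu
  have hu0 : u ≠ 0 := by
    rw [hu, Finset.prod_ne_zero_iff]
    intro j hj
    rw [Finset.mem_erase] at hj
    exact sub_ne_zero.2 fun h => hj.1 (ha h).symm
  induction N with
  | zero =>
    refine ⟨C (C (a i)), C_mem_W _, by simp, ?_⟩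
    rw [zero_add, pow_one, X_dvd_iff, hev]
    exact Finset.prod_eq_zero (Finset.mem_univ i) (by simp)
  | succ N ih =>
    obtain ⟨x, hxW, hx0, e, he⟩ := ih
    set c : k[X] := (F.eval x).coeff (N + 1) with hc
    have hcd : c.natDegree ≤ N + 1 := hW.eval hxW (N + 1)
    have hce : e.coeff 0 = c := by
      rw [hc, he, mul_comm, coeff_mul_X_pow', if_pos le_rfl, Nat.sub_self]
    set y : k[X][X] := -(C (c * C u⁻¹) * X ^ (N + 1)) with hy
    refine ⟨x + y, ?_, ?_, ?_⟩
    · refine Subring.add_mem _ hxW (Subring.neg_mem _ (mono_mem_W _ _ ?_))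
      refine natDegree_mul_le.trans ?_
      rw [natDegree_C, add_zero]
      exact hcd
    · rw [coeff_add, hx0, hy, coeff_neg, coeff_C_mul_X_pow, if_neg (by lia), neg_zero, add_zero]
    · obtain ⟨q, hq⟩ := binomExpansion F x y
      rw [hq]
      have e1 : F.eval x + F.derivative.eval x * y =
          X ^ (N + 1) * (e - F.derivative.eval x * C (c * C u⁻¹)) := by
        rw [he, hy]
        ring
      have e2 : X ∣ e - F.derivative.eval x * C (c * C u⁻¹) := by
        rw [X_dvd_iff, coeff_sub, coeff_mul_C, hce, hder x hx0, mul_comm c, ← mul_assoc, ← C_mul,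
          mul_inv_cancel₀ hu0, C_1, one_mul, sub_self]
      have e3 : X ^ (N + 1 + 1) ∣ q * y ^ 2 := by
        rw [hy]
        refine Dvd.dvd.mul_left ?_ _
        refine ⟨C (c * C u⁻¹) ^ 2 * X ^ N, ?_⟩
        ring
      refine dvd_add ?_ e3
      rw [e1, pow_succ (X : k[X][X]) (N + 1)]
      exact mul_dvd_mul_left _ e2

end weights

section degrees

variable {A : Type*} [CommRing A]

theorem coeff_coeff_swap (p : A[X][X]) (m n : ℕ) :
    ((Bivariate.swap p).coeff m).coeff n = (p.coeff n).coeff m := by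
  induction p using Polynomial.induction_on' with
  | add p q hp hq => rw [map_add, coeff_add, coeff_add, coeff_add, coeff_add, hp, hq]
  | monomial i f =>
    induction f using Polynomial.induction_on' with
    | add f g hf hg =>
      rw [map_add, map_add, coeff_add, coeff_add, coeff_add, coeff_add, hf, hg]
    | monomial j r =>
      rw [Bivariate.swap_monomial_monomial, coeff_monomial, coeff_monomial]
      by_cases h1 : j = m <;> by_cases h2 : i = n <;> simp [h1, h2, coeff_monomial]

theorem tdeg_iff (p : A[X][X]) (D : ℕ) :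
    (∀ m, (p.coeff m).natDegree ≤ D) ↔ (Bivariate.swap p).natDegree ≤ D := by
  rw [natDegree_le_iff_coeff_eq_zero]
  constructor
  · intro h N hN
    ext n
    rw [coeff_coeff_swap, coeff_zero]
    exact coeff_eq_zero_of_natDegree_lt (lt_of_le_of_lt (h n) hN)
  · intro h m
    rw [natDegree_le_iff_coeff_eq_zero]
    intro N hN
    rw [← coeff_coeff_swap, h N hN, coeff_zero]

theorem tdeg_of_mul [IsDomain A] {f g : A[X][X]} {D : ℕ} (hf : f ≠ 0) (hg : g ≠ 0)
    (h : ∀ m, ((f * g).coeff m).natDegree ≤ D) (m : ℕ) : (f.coeff m).natDegree ≤ D := by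
  refine (tdeg_iff f D).2 ?_ m
  have h1 := (tdeg_iff (f * g) D).1 h
  rw [map_mul, natDegree_mul] at h1
  · lia
  · exact (map_ne_zero_iff _ (Bivariate.swap (R := A)).injective).2 hf
  · exact (map_ne_zero_iff _ (Bivariate.swap (R := A)).injective).2 hg

/-- truncation -/
theorem exists_trunc (D : ℕ) (E : A[X][X]) : ∃ B : A[X][X], ∀ m j,
    ((B.coeff m).coeff j) = if j ≤ D then (E.coeff m).coeff j else 0 := by
  refine ⟨∑ m ∈ Finset.range (E.natDegree + 1),
    C (∑ j ∈ Finset.range (D + 1), C ((E.coeff m).coeff j) * X ^ j) * X ^ m, fun m j => ?_⟩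
  rw [finsetSum_coeff]
  simp only [coeff_C_mul_X_pow]
  have h1 : ∀ m' : ℕ, (if m = m' then ∑ j ∈ Finset.range (D + 1), C ((E.coeff m').coeff j) * X ^ j
      else (0 : A[X])).coeff j =
      if m = m' then (if j ≤ D then (E.coeff m).coeff j else 0) else 0 := by
    intro m'
    split_ifs with h2 h4
    · subst h2
      rw [finsetSum_coeff]
      simp only [coeff_C_mul_X_pow]
      rw [Finset.sum_ite_eq, if_pos (Finset.mem_range.2 (by lia))]
    · rw [finsetSum_coeff]
      simp only [coeff_C_mul_X_pow]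
      rw [Finset.sum_ite_eq, if_neg (by rw [Finset.mem_range]; lia)]
    · exact coeff_zero _
  rw [finsetSum_coeff]
  simp only [h1]
  rw [Finset.sum_ite_eq]
  split_ifs with h2 h4 h4
  · rfl
  · rfl
  · rw [Finset.mem_range, not_lt] at h2
    rw [coeff_eq_zero_of_natDegree_lt (by lia : E.natDegree < m), coeff_zero]
  · rfl

end degrees

section main

variable {k : Type*} [Field k]

/-- specialisation of the parameter -/
noncomputable abbrev sp (c : k) : k[X][X] →+* k[X] := mapRingHom (evalRingHom c)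

theorem coeff_sp (c : k) (y : k[X][X]) (j : ℕ) : (sp c y).coeff j = (y.coeff j).eval c := by
  rw [sp, coe_mapRingHom, coeff_map]
  rfl

/-- a set of indices for which both products are short gives a factorisation -/
theorem reducible_of_short {n D : ℕ} {F : k[X][X][X]} (hm : F.Monic) (hn : F.natDegree = n)
    (hD : ∀ i, (F.coeff i).natDegree ≤ D) (hirr : Irreducible F) (x : Fin n → k[X][X])
    (hx : ∀ i, X ^ (2 * D + 1) ∣ F.eval (x i))
    (hu : ∀ i j, i ≠ j → IsUnit ((x i - x j).coeff 0)) (I : Finset (Fin n)) (hI : I.Nonempty)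
    (hI' : Iᶜ.Nonempty)
    (h1 : ∀ m j, D < j → j ≤ 2 * D → ((∏ i ∈ I, (X - C (x i))).coeff m).coeff j = 0)
    (h2 : ∀ m j, D < j → j ≤ 2 * D → ((∏ i ∈ Iᶜ, (X - C (x i))).coeff m).coeff j = 0) :
    False := by
  obtain ⟨A, hA⟩ := exists_trunc D (∏ i ∈ I, (X - C (x i)))
  obtain ⟨B, hB⟩ := exists_trunc D (∏ i ∈ Iᶜ, (X - C (x i)))
  have hnt := nontrivial_red (A := k[X]) (N := 2 * D + 1) (by lia)
  have hF : F.map (red k[X] (2 * D + 1)) =
      (∏ i ∈ I, (X - C (x i))).map (red k[X] (2 * D + 1)) *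
      (∏ i ∈ Iᶜ, (X - C (x i))).map (red k[X] (2 * D + 1)) := by
    rw [← Polynomial.map_mul, Finset.prod_mul_prod_compl, Polynomial.map_prod]
    simp only [Polynomial.map_sub, map_X, map_C]
    refine (eq_of_monic_of_dvd_of_natDegree_le
      (monic_prod' Finset.univ fun i => red k[X] (2 * D + 1) (x i)) (hm.map _) ?_ ?_)
    · refine prod_dvd Finset.univ (fun i => red k[X] (2 * D + 1) (x i)) _ (fun i _ => ?_)
        (fun i _ j _ hij => ?_)
      · rw [eval_map_apply, red_eq_zero_iff]
        exact hx i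
      · rw [← map_sub]
        exact isUnit_red _ (hu i j hij)
    · rw [natDegree_prod', hm.natDegree_map, hn, Finset.card_univ, Fintype.card_fin]
  have hAm : A.map (red k[X] (2 * D + 1)) =
      (∏ i ∈ I, (X - C (x i))).map (red k[X] (2 * D + 1)) := by
    ext m
    rw [coeff_map, coeff_map, red_eq_iff]
    intro j hj
    rw [hA]
    split_ifs with h3
    · rfl
    · rw [h1 m j (by lia) (by lia)]
  have hBm : B.map (red k[X] (2 * D + 1)) =
      (∏ i ∈ Iᶜ, (X - C (x i))).map (red k[X] (2 * D + 1)) := by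
    ext m
    rw [coeff_map, coeff_map, red_eq_iff]
    intro j hj
    rw [hB]
    split_ifs with h3
    · rfl
    · rw [h2 m j (by lia) (by lia)]
  have hAd : ∀ m, (A.coeff m).natDegree ≤ D := fun m => by
    rw [natDegree_le_iff_coeff_eq_zero]
    intro N hN
    rw [hA, if_neg (by lia)]
  have hBd : ∀ m, (B.coeff m).natDegree ≤ D := fun m => by
    rw [natDegree_le_iff_coeff_eq_zero]
    intro N hN
    rw [hB, if_neg (by lia)]
  have hAB : F = A * B := by
    have h3 : F.map (red k[X] (2 * D + 1)) = (A * B).map (red k[X] (2 * D + 1)) := by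
      rw [hF, Polynomial.map_mul, hAm, hBm]
    ext1 m
    ext1 j
    by_cases hj : j < 2 * D + 1
    · have h4 := congrArg (fun P => P.coeff m) h3
      rw [coeff_map, coeff_map, red_eq_iff] at h4
      exact h4 j hj
    · rw [coeff_eq_zero_of_natDegree_lt (by have := hD m; lia),
        coeff_eq_zero_of_natDegree_lt]
      refine lt_of_le_of_lt (?_ : _ ≤ D + D) (by lia)
      rw [coeff_mul]
      refine natDegree_sum_le_of_forall_le _ _ fun p _ => ?_
      exact natDegree_mul_le.trans (add_le_add (hAd _) (hBd _))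
  have key : ∀ (S : Finset (Fin n)) (P : k[X][X][X]), S.Nonempty → (∀ m j,
      ((P.coeff m).coeff j) = if j ≤ D then ((∏ i ∈ S, (X - C (x i))).coeff m).coeff j else 0) →
      ¬ IsUnit P := by
    intro S P hS hP hunit
    have h4 := natDegree_eq_zero_of_isUnit hunit
    have h5 : ((P.coeff S.card).coeff 0) = 1 := by
      rw [hP, if_pos (Nat.zero_le _)]
      have h6 := (monic_prod' S x).coeff_natDegree
      rw [natDegree_prod'] at h6
      rw [h6, coeff_one_zero]
    have h7 : S.card ≠ 0 := (Finset.card_pos.2 hS).ne'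
    rw [coeff_eq_zero_of_natDegree_lt (by lia : P.natDegree < S.card), coeff_zero] at h5
    exact zero_ne_one h5
  rcases hirr.isUnit_or_isUnit hAB with h | h
  · exact key I A hI hA h
  · exact key Iᶜ B hI' hB h

/-- a factorisation of a specialisation comes from a set of indices -/
theorem short_of_reducible {n D : ℕ} {F : k[X][X][X]} (hm : F.Monic) (hn : F.natDegree = n)
    (hD : ∀ i, (F.coeff i).natDegree ≤ D) (a : Fin n → k) (ha : Function.Injective a)
    (h0 : F.map (at0 k[X]) = ∏ i, (X - C (C (a i)))) (hn0 : 0 < n) (x : Fin n → k[X][X])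
    (hx0 : ∀ i, (x i).coeff 0 = C (a i)) (hx : ∀ i, X ^ (2 * D + 1) ∣ F.eval (x i)) (c : k)
    (hc : ¬ Irreducible (F.map (sp c))) : ∃ I : Finset (Fin n), I.Nonempty ∧ Iᶜ.Nonempty ∧
      (∀ m j, D < j → j ≤ 2 * D → (((∏ i ∈ I, (X - C (x i))).coeff m).coeff j).eval c = 0) ∧
      (∀ m j, D < j → j ≤ 2 * D → (((∏ i ∈ Iᶜ, (X - C (x i))).coeff m).coeff j).eval c = 0) := by
  classical
  have hmc : (F.map (sp c)).Monic := hm.map _
  have hnc : (F.map (sp c)).natDegree = n := by rw [hm.natDegree_map, hn]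
  have hDc : ∀ m, ((F.map (sp c)).coeff m).natDegree ≤ D := by
    intro m
    rw [coeff_map, sp, coe_mapRingHom]
    exact natDegree_map_le.trans (hD m)
  have h1 : F.map (sp c) ≠ 1 := by
    intro h
    rw [h, natDegree_one] at hnc
    lia
  rw [hmc.irreducible_iff_natDegree] at hc
  push Not at hc
  obtain ⟨f, g, hf, hg, hfg, hf0, hg0⟩ := hc h1
  have hat : (F.map (sp c)).map (at0 k) = ∏ i, (X - C (a i)) := by
    have e1 : (at0 k).comp (sp c) = (evalRingHom c).comp (at0 k[X]) := by
      ext z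
      · simp
      · simp
      · simp
    rw [Polynomial.map_map, e1, ← Polynomial.map_map, h0, Polynomial.map_prod]
    simp
  have hfg0 : f.map (at0 k) * g.map (at0 k) = ∏ i, (X - C (a i)) := by
    rw [← Polynomial.map_mul, hfg, hat]
  have hcop : IsCoprime (f.map (at0 k)) (g.map (at0 k)) := by
    refine Separable.isCoprime ?_
    rw [hfg0]
    exact separable_prod_X_sub_C_iff.2 ha
  have hxc0 : ∀ i, (sp c (x i)).coeff 0 = a i := by
    intro i
    rw [coeff_sp, hx0, eval_C]
  have hval : ∀ (P : k[X][X]) (i : Fin n), (P.eval (sp c (x i))).coeff 0 =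
      (P.map (at0 k)).eval (a i) := by
    intro P i
    rw [← at0_apply, ← eval_map_apply, at0_apply, hxc0]
  have hmul0 : ∀ i, red k (2 * D + 1) (f.eval (sp c (x i))) *
      red k (2 * D + 1) (g.eval (sp c (x i))) = 0 := by
    intro i
    rw [← map_mul, ← eval_mul, hfg, eval_map_apply, red_eq_zero_iff]
    obtain ⟨e, he⟩ := hx i
    refine ⟨sp c e, ?_⟩
    rw [he, map_mul, map_pow]
    simp
  have hnt := nontrivial_red (A := k) (N := 2 * D + 1) (by lia)
  set I : Finset (Fin n) := Finset.univ.filter fun i => (f.map (at0 k)).eval (a i) = 0 with hI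
  have hfI : ∀ i ∈ I, (f.map (red k (2 * D + 1))).eval (red k (2 * D + 1) (sp c (x i))) = 0 := by
    intro i hi
    rw [hI, Finset.mem_filter] at hi
    rw [eval_map_apply]
    have h2 : (g.map (at0 k)).eval (a i) ≠ 0 := by
      intro h3
      obtain ⟨u, v, huv⟩ := hcop
      have h4 := congrArg (fun P => P.eval (a i)) huv
      simp only [eval_add, eval_mul, hi.2, h3, mul_zero, add_zero, eval_one] at h4
      exact zero_ne_one h4
    have h5 : IsUnit (red k (2 * D + 1) (g.eval (sp c (x i)))) := by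
      refine isUnit_red _ ?_
      rw [hval]
      exact h2.isUnit
    exact h5.mul_left_eq_zero.1 (hmul0 i)
  have hgI : ∀ i ∈ Iᶜ, (g.map (red k (2 * D + 1))).eval (red k (2 * D + 1) (sp c (x i))) = 0 := by
    intro i hi
    rw [Finset.mem_compl, hI, Finset.mem_filter] at hi
    rw [eval_map_apply]
    have h5 : IsUnit (red k (2 * D + 1) (f.eval (sp c (x i)))) := by
      refine isUnit_red _ ?_
      rw [hval]
      exact (show (f.map (at0 k)).eval (a i) ≠ 0 from fun h => hi ⟨Finset.mem_univ i, h⟩).isUnit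
    exact h5.mul_right_eq_zero.1 (hmul0 i)
  have hdiff : ∀ i j : Fin n, i ≠ j →
      IsUnit (red k (2 * D + 1) (sp c (x i)) - red k (2 * D + 1) (sp c (x j))) := by
    intro i j hij
    rw [← map_sub]
    refine isUnit_red _ ?_
    rw [coeff_sub, hxc0, hxc0]
    exact (sub_ne_zero.2 fun h => hij (ha h)).isUnit
  have hdf : (∏ i ∈ I, (X - C (red k (2 * D + 1) (sp c (x i))))) ∣ f.map (red k (2 * D + 1)) :=
    prod_dvd I (fun i => red k (2 * D + 1) (sp c (x i))) _ hfI fun i _ j _ hij => hdiff i j hij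
  have hdg : (∏ i ∈ Iᶜ, (X - C (red k (2 * D + 1) (sp c (x i))))) ∣ g.map (red k (2 * D + 1)) :=
    prod_dvd Iᶜ (fun i => red k (2 * D + 1) (sp c (x i))) _ hgI fun i _ j _ hij => hdiff i j hij
  have hcf : I.card ≤ f.natDegree := by
    by_contra h
    rw [not_le] at h
    refine (monic_prod' I fun i => red k (2 * D + 1) (sp c (x i))).not_dvd_of_natDegree_lt
      (hf.map (red k (2 * D + 1))).ne_zero ?_ hdf
    rw [natDegree_prod', hf.natDegree_map]
    exact h
  have hcg : Iᶜ.card ≤ g.natDegree := by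
    by_contra h
    rw [not_le] at h
    refine (monic_prod' Iᶜ fun i => red k (2 * D + 1) (sp c (x i))).not_dvd_of_natDegree_lt
      (hg.map (red k (2 * D + 1))).ne_zero ?_ hdg
    rw [natDegree_prod', hg.natDegree_map]
    exact h
  have hsum : f.natDegree + g.natDegree = n := by
    rw [← hf.natDegree_mul hg, hfg, hnc]
  have hcard : I.card + Iᶜ.card = n := by
    rw [Finset.card_add_card_compl, Fintype.card_fin]
  have hef : f.map (red k (2 * D + 1)) =
      ∏ i ∈ I, (X - C (red k (2 * D + 1) (sp c (x i)))) := by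
    refine eq_of_monic_of_dvd_of_natDegree_le (monic_prod' _ _) (hf.map _) hdf ?_
    rw [natDegree_prod', hf.natDegree_map]
    lia
  have heg : g.map (red k (2 * D + 1)) =
      ∏ i ∈ Iᶜ, (X - C (red k (2 * D + 1) (sp c (x i)))) := by
    refine eq_of_monic_of_dvd_of_natDegree_le (monic_prod' _ _) (hg.map _) hdg ?_
    rw [natDegree_prod', hg.natDegree_map]
    lia
  have hfD : ∀ m, (f.coeff m).natDegree ≤ D := tdeg_of_mul hf.ne_zero hg.ne_zero
    (by rw [hfg]; exact hDc)
  have hgD : ∀ m, (g.coeff m).natDegree ≤ D := tdeg_of_mul hg.ne_zero hf.ne_zero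
    (by rw [mul_comm, hfg]; exact hDc)
  have hspm : ∀ S : Finset (Fin n), ((∏ i ∈ S, (X - C (x i))).map (sp c)).map
      (red k (2 * D + 1)) = ∏ i ∈ S, (X - C (red k (2 * D + 1) (sp c (x i)))) := by
    intro S
    rw [Polynomial.map_prod, Polynomial.map_prod]
    simp only [Polynomial.map_sub, map_X, map_C]
  refine ⟨I, ?_, ?_, ?_, ?_⟩
  · rw [← Finset.card_pos]
    lia
  · rw [← Finset.card_pos]
    lia
  · intro m j hj1 hj2
    have e1 := hspm I
    rw [← hef] at e1
    have e2 := congrArg (fun P => P.coeff m) e1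
    rw [coeff_map, coeff_map, coeff_map, red_eq_iff] at e2
    have e3 := e2 j (by lia)
    rw [coeff_sp] at e3
    rw [e3]
    exact coeff_eq_zero_of_natDegree_lt (lt_of_le_of_lt (hfD m) hj1)
  · intro m j hj1 hj2
    have e1 := hspm Iᶜ
    rw [← heg] at e1
    have e2 := congrArg (fun P => P.coeff m) e1
    rw [coeff_map, coeff_map, coeff_map, red_eq_iff] at e2
    have e3 := e2 j (by lia)
    rw [coeff_sp] at e3
    rw [e3]
    exact coeff_eq_zero_of_natDegree_lt (lt_of_le_of_lt (hgD m) hj1)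

/-- **Bertini by Hensel and counting.** -/
theorem bertini {n D : ℕ} {F : k[X][X][X]} (hm : F.Monic) (hn : F.natDegree = n) (hn0 : 0 < n)
    (hW : CW F) (hD : ∀ i, (F.coeff i).natDegree ≤ D) (hirr : Irreducible F) (a : Fin n → k)
    (ha : Function.Injective a) (h0 : F.map (at0 k[X]) = ∏ i, (X - C (C (a i)))) :
    ∃ B : Finset k, B.card ≤ 2 ^ n * (2 * D) ∧ ∀ c ∉ B, Irreducible (F.map (sp c)) := by
  classical
  choose x hxW hx0 hx using fun i => root_lift F hW a ha h0 i (2 * D)
  have hu : ∀ i j, i ≠ j → IsUnit ((x i - x j).coeff 0) := by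
    intro i j hij
    rw [coeff_sub, hx0, hx0, ← C_sub, isUnit_C]
    exact (sub_ne_zero.2 fun h => hij (ha h)).isUnit
  have key : ∀ I : Finset (Fin n), ∃ p : k[X], p.natDegree ≤ 2 * D ∧ (I.Nonempty → Iᶜ.Nonempty →
      p ≠ 0) ∧ ∀ c : k,
      (∀ m j, D < j → j ≤ 2 * D → (((∏ i ∈ I, (X - C (x i))).coeff m).coeff j).eval c = 0) →
      (∀ m j, D < j → j ≤ 2 * D → (((∏ i ∈ Iᶜ, (X - C (x i))).coeff m).coeff j).eval c = 0) →
      p.eval c = 0 := by
    intro I
    by_cases hI : I.Nonempty ∧ Iᶜ.Nonempty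
    · by_cases h1 : ∀ m j, D < j → j ≤ 2 * D →
          ((∏ i ∈ I, (X - C (x i))).coeff m).coeff j = 0
      · by_cases h2 : ∀ m j, D < j → j ≤ 2 * D →
            ((∏ i ∈ Iᶜ, (X - C (x i))).coeff m).coeff j = 0
        · exact absurd (reducible_of_short hm hn hD hirr x hx hu I hI.1 hI.2 h1 h2) id
        · push Not at h2
          obtain ⟨m, j, hj1, hj2, h3⟩ := h2
          refine ⟨_, ?_, fun _ _ => h3, fun c _ h4 => h4 m j hj1 hj2⟩
          exact ((CW_prod Iᶜ x fun i _ => hxW i) m j).trans hj2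
      · push Not at h1
        obtain ⟨m, j, hj1, hj2, h3⟩ := h1
        refine ⟨_, ?_, fun _ _ => h3, fun c h4 _ => h4 m j hj1 hj2⟩
        exact ((CW_prod I x fun i _ => hxW i) m j).trans hj2
    · refine ⟨0, by simp, fun h1 h2 => absurd ⟨h1, h2⟩ hI, fun c _ _ => eval_zero⟩
  choose p hpd hp0 hpc using key
  refine ⟨Finset.univ.biUnion fun I => (p I).roots.toFinset, ?_, ?_⟩
  · refine Finset.card_biUnion_le.trans ?_
    have h1 : ∀ I ∈ (Finset.univ : Finset (Finset (Fin n))),
        (p I).roots.toFinset.card ≤ 2 * D := fun I _ =>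
      (Multiset.toFinset_card_le _).trans ((card_roots' _).trans (hpd I))
    refine (Finset.sum_le_card_nsmul _ _ _ h1).trans ?_
    rw [Finset.card_univ, Fintype.card_finset, Fintype.card_fin, smul_eq_mul]
  · intro c hc
    by_contra hirrc
    obtain ⟨I, hI, hI', h1, h2⟩ := short_of_reducible hm hn hD a ha h0 hn0 x hx0 hx c hirrc
    refine hc (Finset.mem_biUnion.2 ⟨I, Finset.mem_univ I, ?_⟩)
    rw [Multiset.mem_toFinset, mem_roots (hp0 I hI hI')]
    exact hpc I c h1 h2

end main

end MPb197b4P.Bert
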