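import Pool.Agent.Lib.MP_b197b4_ntP.Bert

/-!
# MP_b197b4_nt: the generic member of the pencil is irreducible

`P : k[X][Y][Z]` (innermost variable `X`, outermost variable `Z`), of weighted degree at most `m D`,
where `X` has weight `1` and `Y`, `Z` have weight `m`, and of degree at most `D` in `(Y, Z)`.
-/

set_option autoImplicit false

namespace MPb197b4P.Bert

open Polynomial

section scale

variable {A : Type*} [CommRing A] [IsDomain A]

theorem scaleRoots_comp {t : A} (ht : t ≠ 0) (G : A[X]) :
    (G.comp (C t * X)).scaleRoots t = G * C t ^ G.natDegree := by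
  have hd : (G.comp (C t * X)).natDegree = G.natDegree := by
    rw [natDegree_comp, natDegree_C_mul_X t ht, mul_one]
  ext i
  rw [coeff_scaleRoots, hd, comp_C_mul_X_coeff, ← C_pow, coeff_mul_C]
  by_cases hi : i ≤ G.natDegree
  · rw [mul_assoc, ← pow_add, Nat.add_sub_cancel' hi]
  · rw [coeff_eq_zero_of_natDegree_lt (by lia)]
    simp

theorem isUnit_of_scaleRoots {t : A} {G a : A[X]} (h0 : ¬ t ∣ G.coeff 0)
    (ha : a ∣ G.comp (C t * X)) {u : A[X]} (hu : IsUnit u) {i : ℕ}
    (h : a.scaleRoots t = u * C t ^ i) : IsUnit a := by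
  obtain ⟨v, hv, rfl⟩ := isUnit_iff.1 hu
  have h1 : a.natDegree = 0 := by
    rw [← natDegree_scaleRoots a t, h, ← C_pow, ← C_mul, natDegree_C]
  have h2 : a = C (v * t ^ i) := by
    have h3 := congrArg (fun p => p.coeff 0) h
    simp only [coeff_scaleRoots, h1, Nat.sub_self, pow_zero, mul_one] at h3
    rw [eq_C_of_natDegree_eq_zero h1, h3, ← C_pow, ← C_mul, coeff_C_zero]
  rcases Nat.eq_zero_or_pos i with hi | hi
  · rw [h2, hi, pow_zero, mul_one]
    exact isUnit_C.2 hv
  · exfalso
    refine h0 ?_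
    have h4 : C t ∣ G.comp (C t * X) := by
      refine Dvd.dvd.trans ?_ ha
      rw [h2, C_mul, C_pow]
      exact Dvd.dvd.mul_left (dvd_pow_self _ hi.ne') _
    have h5 := (C_dvd_iff_dvd_coeff t _).1 h4 0
    rw [comp_C_mul_X_coeff, pow_zero, mul_one] at h5
    exact h5

/-- scaling the variable by a prime -/
theorem irreducible_scale {t : A} (ht : Prime t) {G : A[X]} (hG : Irreducible G)
    (h0 : ¬ t ∣ G.coeff 0) : Irreducible (G.comp (C t * X)) := by
  have hG0 : G ≠ 0 := hG.ne_zero
  have hd : (G.comp (C t * X)).natDegree = G.natDegree := by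
    rw [natDegree_comp, natDegree_C_mul_X t ht.ne_zero, mul_one]
  refine ⟨fun hu => ?_, fun {a b} hab => ?_⟩
  · have h1 : G.natDegree = 0 := by
      rw [← hd]
      exact natDegree_eq_zero_of_isUnit hu
    rw [eq_C_of_natDegree_eq_zero h1, C_comp] at hu
    refine hG.not_isUnit ?_
    rw [eq_C_of_natDegree_eq_zero h1]
    exact hu
  · have h1 : a.scaleRoots t * b.scaleRoots t = G * C t ^ G.natDegree := by
      rw [← mul_scaleRoots_of_noZeroDivisors, ← hab, scaleRoots_comp ht.ne_zero]
    obtain ⟨i, j, b', c', -, hG', ha', hb'⟩ := mul_eq_mul_prime_pow (prime_C_iff.2 ht) h1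
    rcases hG.isUnit_or_isUnit hG' with hu | hu
    · left
      exact isUnit_of_scaleRoots h0 ⟨b, hab⟩ hu ha'
    · right
      exact isUnit_of_scaleRoots h0 ⟨a, by rw [hab, mul_comm]⟩ hu hb'

end scale

section rings

variable {k : Type*} [Field k]

/-- reversal of the order of the three variables -/
noncomputable def rev (k : Type*) [Field k] : k[X][X][X] ≃+* k[X][X][X] :=
  ((Bivariate.swap (R := k[X])).toRingEquiv.trans
    (mapEquiv (Bivariate.swap (R := k)).toRingEquiv)).trans
    (Bivariate.swap (R := k[X])).toRingEquiv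

/-- `Y ↦ Y + q` in `k[X][Y]` -/
noncomputable def shY (q : k[X]) : k[X][X] ≃+* k[X][X] := (algEquivAevalXAddC q).toRingEquiv

/-- `Y ↦ Y + q`, `Z ↦ Z + r` in `k[X][Y][Z]` -/
noncomputable def sh (q r : k[X]) : k[X][X][X] ≃+* k[X][X][X] :=
  (algEquivAevalXAddC (C r : k[X][X])).toRingEquiv.trans (mapEquiv (shY q))

/-- `G (X, T, L T)` as an element of `k[X][T][L]` -/
noncomputable def scl (k : Type*) [Field k] : k[X][X][X] →+* k[X][X][X] :=
  compRingHom (C (X : k[X][X]) * X)

/-- `X ↦ X`, `Y ↦ q + T`, `Z ↦ r + L T`, with values in `k[L][T][X]` -/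
noncomputable def Th (q r : k[X]) : k[X][X][X] →+* k[X][X][X] :=
  eval₂RingHom (eval₂RingHom (mapRingHom ((C : k[X] →+* k[X][X]).comp (C : k →+* k[X])))
    (q.map ((C : k[X] →+* k[X][X]).comp (C : k →+* k[X])) + C X))
    (r.map ((C : k[X] →+* k[X][X]).comp (C : k →+* k[X])) + C (C X * X))

theorem rev_apply (p : k[X][X][X]) : rev k p =
    Bivariate.swap ((Bivariate.swap p).map
      ((Bivariate.swap (R := k)).toRingEquiv : k[X][X] →+* k[X][X])) := rfl

theorem rev_C_C (p : k[X]) : rev k (C (C p)) =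
    p.map ((C : k[X] →+* k[X][X]).comp (C : k →+* k[X])) := by
  rw [rev_apply, Bivariate.swap_C_C, map_C]
  have h : ((Bivariate.swap (R := k)).toRingEquiv : k[X][X] →+* k[X][X]) (C p) =
      p.map C := Bivariate.swap_C p
  rw [h, Bivariate.swap_C, Polynomial.map_map]

theorem rev_C_X : rev k (C X) = C X := by
  rw [rev_apply, Bivariate.swap_X, map_X, Bivariate.swap_Y]

theorem rev_X : rev k X = C (C X) := by
  rw [rev_apply, Bivariate.swap_Y, map_C]
  have h : ((Bivariate.swap (R := k)).toRingEquiv : k[X][X] →+* k[X][X]) X =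
      C X := Bivariate.swap_Y
  rw [h, Bivariate.swap_C_C]

theorem sh_X (q r : k[X]) : sh q r X = X + C (C r) := by
  simp [sh, shY]

theorem sh_C_X (q r : k[X]) : sh q r (C X) = C (X + C q) := by
  simp [sh, shY]

theorem sh_C_C (q r p : k[X]) : sh q r (C (C p)) = C (C p) := by
  simp [sh, shY]

theorem scl_X : scl k X = C X * X := by
  simp [scl]

theorem scl_C (p : k[X][X]) : scl k (C p) = C p := by
  simp [scl]

theorem Th_X (q r : k[X]) : Th q r X =
    r.map ((C : k[X] →+* k[X][X]).comp (C : k →+* k[X])) + C (C X * X) := by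
  simp [Th]

theorem Th_C_X (q r : k[X]) : Th q r (C X) =
    q.map ((C : k[X] →+* k[X][X]).comp (C : k →+* k[X])) + C X := by
  simp [Th]

theorem Th_C_C (q r p : k[X]) : Th q r (C (C p)) =
    p.map ((C : k[X] →+* k[X][X]).comp (C : k →+* k[X])) := by
  simp [Th]

/-- two homomorphisms which agree on the three variables and on the constants -/
theorem hom_ext {B : Type*} [CommRing B] {f g : k[X][X][X] →+* B}
    (h0 : ∀ p : k[X], f (C (C p)) = g (C (C p))) (h1 : f (C X) = g (C X)) (h2 : f X = g X) :
    f = g := by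
  refine ringHom_ext' (ringHom_ext' ?_ h1) h2
  exact RingHom.ext h0

theorem Th_eq (q r : k[X]) (P : k[X][X][X]) : Th q r P = rev k (scl k (sh q r P)) := by
  have h : Th q r = ((rev k : k[X][X][X] ≃+* k[X][X][X]) : k[X][X][X] →+* k[X][X][X]).comp
      ((scl k).comp ((sh q r : k[X][X][X] ≃+* k[X][X][X]) : k[X][X][X] →+* k[X][X][X])) := by
    refine hom_ext (B := k[X][X][X]) (fun p => ?_) ?_ ?_
    · simp only [RingHom.comp_apply, RingHom.coe_coe]
      rw [Th_C_C, sh_C_C, scl_C, rev_C_C]
    · simp only [RingHom.comp_apply, RingHom.coe_coe]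
      rw [Th_C_X, sh_C_X, scl_C, C_add, map_add, rev_C_X, rev_C_C, add_comm]
    · simp only [RingHom.comp_apply, RingHom.coe_coe]
      rw [Th_X, sh_X, map_add, scl_X, scl_C, map_add, map_mul (rev k), rev_C_X, rev_X, rev_C_C,
        C_mul]
      ring
  rw [h]
  rfl

/-- the member of the pencil as a polynomial in `X` over `k[T]`, `T = Y - q` -/
noncomputable def eT (q : k[X]) : k[X][X] ≃+* k[X][X] :=
  (shY q).trans (Bivariate.swap (R := k)).toRingEquiv

theorem eT_X (q : k[X]) : eT q X = C X + q.map C := by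
  have h : shY q X = X + C q := by simp [shY]
  have h2 : eT q X = Bivariate.swap (shY q X) := rfl
  rw [h2, h, map_add, Bivariate.swap_Y, Bivariate.swap_C]

theorem eT_C (q p : k[X]) : eT q (C p) = p.map C := by
  have h : shY q (C p) = C p := by simp [shY]
  have h2 : eT q (C p) = Bivariate.swap (shY q (C p)) := rfl
  rw [h2, h, Bivariate.swap_C]

theorem Th_sp (q r : k[X]) (P : k[X][X][X]) (c : k) :
    (Th q r P).map (sp c) = eT q (P.eval (C (r - C c * q) + C (C c) * X)) := by
  have e1 : (sp c).comp ((C : k[X] →+* k[X][X]).comp (C : k →+* k[X])) =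
      (C : k →+* k[X]) := by
    ext z
    simp
  have h : (mapRingHom (sp c)).comp (Th q r) =
      ((eT q : k[X][X] ≃+* k[X][X]) : k[X][X] →+* k[X][X]).comp
        (evalRingHom (C (r - C c * q) + C (C c) * X)) := by
    refine hom_ext (B := k[X][X]) (fun p => ?_) ?_ ?_
    · simp only [RingHom.comp_apply, RingHom.coe_coe, coe_mapRingHom, coe_evalRingHom, eval_C]
      rw [Th_C_C, eT_C, Polynomial.map_map, e1]
    · simp only [RingHom.comp_apply, RingHom.coe_coe, coe_mapRingHom, coe_evalRingHom, eval_C]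
      rw [Th_C_X, eT_X, Polynomial.map_add, Polynomial.map_map, e1, map_C, add_comm]
      simp
    · simp only [RingHom.comp_apply, RingHom.coe_coe, coe_mapRingHom, coe_evalRingHom, eval_X]
      rw [Th_X, Polynomial.map_add, Polynomial.map_map, e1, map_C, map_add, map_mul (eT q),
        eT_X, eT_C, eT_C, Polynomial.map_sub, Polynomial.map_mul, map_C]
      have e2 : sp c (C X * X) = C c * X := by simp
      rw [e2, C_mul]
      ring
  have h2 := congrArg (fun f => f P) h
  exact h2

theorem Th_at0 (q r : k[X]) (P : k[X][X][X]) :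
    (Th q r P).map (at0 k[X]) = ((P.eval (C r)).eval q).map C := by
  have e1 : (at0 k[X]).comp ((C : k[X] →+* k[X][X]).comp (C : k →+* k[X])) =
      (C : k →+* k[X]) := by
    ext z
    simp
  have h : (mapRingHom (at0 k[X])).comp (Th q r) =
      (mapRingHom (C : k →+* k[X])).comp ((evalRingHom q).comp (evalRingHom (C r))) := by
    refine hom_ext (B := k[X][X]) (fun p => ?_) ?_ ?_
    · simp only [RingHom.comp_apply, coe_mapRingHom, coe_evalRingHom, eval_C]
      rw [Th_C_C, Polynomial.map_map, e1]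
    · simp only [RingHom.comp_apply, coe_mapRingHom, coe_evalRingHom, eval_C, eval_X]
      rw [Th_C_X, Polynomial.map_add, Polynomial.map_map, e1, map_C]
      simp
    · simp only [RingHom.comp_apply, coe_mapRingHom, coe_evalRingHom, eval_C, eval_X]
      rw [Th_X, Polynomial.map_add, Polynomial.map_map, e1, map_C]
      simp
  have h2 := congrArg (fun f => f P) h
  exact h2

theorem Th_irreducible {q r : k[X]} {P : k[X][X][X]} (hP : Irreducible P)
    (hN : (P.eval (C r)).eval q ≠ 0) : Irreducible (Th q r P) := by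
  rw [Th_eq]
  have h1 : Irreducible (sh q r P) := (MulEquiv.irreducible_iff (sh q r).toMulEquiv).2 hP
  have h2 : ((sh q r P).coeff 0).coeff 0 = (P.eval (C r)).eval q := by
    have h : ((evalRingHom (0 : k[X])).comp (evalRingHom (0 : k[X][X]))).comp
        ((sh q r : k[X][X][X] ≃+* k[X][X][X]) : k[X][X][X] →+* k[X][X][X]) =
        (evalRingHom q).comp (evalRingHom (C r)) := by
      refine hom_ext (B := k[X]) (fun p => ?_) ?_ ?_
      · simp only [RingHom.comp_apply, RingHom.coe_coe, coe_evalRingHom, eval_C]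
        rw [sh_C_C]
        simp
      · simp only [RingHom.comp_apply, RingHom.coe_coe, coe_evalRingHom, eval_C, eval_X]
        rw [sh_C_X]
        simp
      · simp only [RingHom.comp_apply, RingHom.coe_coe, coe_evalRingHom, eval_C, eval_X]
        rw [sh_X]
        simp
    have h3 := congrArg (fun f => f P) h
    rw [coeff_zero_eq_eval_zero, coeff_zero_eq_eval_zero]
    exact h3
  have h3 : Irreducible (scl k (sh q r P)) := by
    refine irreducible_scale (prime_X : Prime (X : k[X][X])) h1 ?_
    rw [X_dvd_iff, h2]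
    exact hN
  exact (MulEquiv.irreducible_iff (rev k).toMulEquiv).2 h3

end rings

end MPb197b4P.Bert
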