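import Pool.Agent.Lib.MP_b197b4_ntP.Bert2

/-!
# MP_b197b4_nt: all but boundedly many members of the pencil through a split set are irreducible
-/

set_option autoImplicit false

namespace MPb197b4P.Bert

open Polynomial

section bounds

variable {k : Type*} [Field k]

/-- degree at most `d` in `X` with constant coefficient of `X ^ d`, degree at most `e` in `T`, the
coefficient of `T ^ j` of degree at most `j` in the parameter -/
structure GD (d e : ℕ) (f : k[X][X][X]) : Prop where
  deg : f.natDegree ≤ d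
  top : ∃ z : k, f.coeff d = C (C z)
  wt : CW f
  tdeg : ∀ i, (f.coeff i).natDegree ≤ e

theorem GD.mul {d e d' e' : ℕ} {f g : k[X][X][X]} (hf : GD d e f) (hg : GD d' e' g) :
    GD (d + d') (e + e') (f * g) := by
  obtain ⟨y, hy⟩ := hf.top
  obtain ⟨z, hz⟩ := hg.top
  refine ⟨natDegree_mul_le.trans (add_le_add hf.deg hg.deg), ⟨y * z, ?_⟩, hf.wt.mul hg.wt,
    fun i => ?_⟩
  · rw [coeff_mul_add_eq_of_natDegree_le hf.deg hg.deg, hy, hz, ← C_mul, ← C_mul]
  · rw [coeff_mul]
    refine natDegree_sum_le_of_forall_le _ _ fun p _ => ?_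
    exact natDegree_mul_le.trans (add_le_add (hf.tdeg _) (hg.tdeg _))

theorem GD.one : GD 0 0 (1 : k[X][X][X]) := by
  refine ⟨by simp, ⟨1, by simp⟩, CW_one, fun i => ?_⟩
  rw [coeff_one]
  split_ifs <;> simp

theorem GD.pow {d e : ℕ} {f : k[X][X][X]} (hf : GD d e f) (i : ℕ) :
    GD (d * i) (e * i) (f ^ i) := by
  induction i with
  | zero => simpa using GD.one
  | succ i ih =>
    rw [pow_succ]
    exact ih.mul hf

theorem GD.mono {d e e' : ℕ} {f : k[X][X][X]} (hf : GD d e f) (h : e ≤ e') : GD d e' f :=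
  ⟨hf.deg, hf.top, hf.wt, fun i => (hf.tdeg i).trans h⟩

theorem GD.zero {d e : ℕ} : GD d e (0 : k[X][X][X]) := by
  refine ⟨by simp, ⟨0, by simp⟩, fun i => ?_, fun i => by simp⟩
  rw [coeff_zero]
  exact Subring.zero_mem _

theorem GD.add {d e : ℕ} {f g : k[X][X][X]} (hf : GD d e f) (hg : GD d e g) :
    GD d e (f + g) := by
  obtain ⟨y, hy⟩ := hf.top
  obtain ⟨z, hz⟩ := hg.top
  refine ⟨(natDegree_add_le _ _).trans (max_le hf.deg hg.deg), ⟨y + z, ?_⟩, fun i => ?_,
    fun i => ?_⟩
  · rw [coeff_add, hy, hz, ← C_add, ← C_add]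
  · rw [coeff_add]
    exact Subring.add_mem _ (hf.wt i) (hg.wt i)
  · rw [coeff_add]
    exact (natDegree_add_le _ _).trans (max_le (hf.tdeg i) (hg.tdeg i))

theorem GD.sum {d e : ℕ} {ι : Type*} (s : Finset ι) (f : ι → k[X][X][X])
    (hf : ∀ i ∈ s, GD d e (f i)) : GD d e (∑ i ∈ s, f i) := by
  classical
  induction s using Finset.induction_on with
  | empty =>
    rw [Finset.sum_empty]
    exact GD.zero
  | insert a s ha ih =>
    rw [Finset.sum_insert ha]
    exact (hf a (Finset.mem_insert_self _ _)).add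
      (ih fun i hi => hf i (Finset.mem_insert_of_mem hi))

theorem coeff_hat (p : k[X]) (i : ℕ) :
    (p.map ((C : k[X] →+* k[X][X]).comp (C : k →+* k[X]))).coeff i = C (C (p.coeff i)) := by
  rw [coeff_map]
  rfl

theorem GD.hat {p : k[X]} {d : ℕ} (hp : p.natDegree ≤ d) :
    GD d 0 (p.map ((C : k[X] →+* k[X][X]).comp (C : k →+* k[X]))) := by
  refine ⟨natDegree_map_le.trans hp, ⟨p.coeff d, coeff_hat p d⟩, fun i => ?_, fun i => ?_⟩
  · rw [coeff_hat]
    exact C_mem_W _
  · rw [coeff_hat]
    simp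

theorem GD.const {m : ℕ} (hm : 0 < m) {y : k[X][X]} (hy : y ∈ W k) (hy1 : y.natDegree ≤ 1) :
    GD m 1 (C y) := by
  refine ⟨by simp, ⟨0, ?_⟩, fun i => ?_, fun i => ?_⟩
  · rw [coeff_C, if_neg hm.ne']
    simp
  · rw [coeff_C]
    split_ifs
    · exact hy
    · exact Subring.zero_mem _
  · rw [coeff_C]
    split_ifs
    · exact hy1
    · simp

/-- `P` has weighted degree at most `m D` (`X` of weight `1`, `Y` and `Z` of weight `m`) and degree
at most `D` in `(Y, Z)`. -/
structure Wt3 {A : Type*} [CommRing A] (m D : ℕ) (P : A[X][X][X]) : Prop where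
  deg : ∀ i j, i + j ≤ D → ((P.coeff j).coeff i).natDegree ≤ m * (D - (i + j))
  zero : ∀ i j, D < i + j → (P.coeff j).coeff i = 0

theorem GD_Th {m D : ℕ} (hm : 0 < m) {q r : k[X]} (hq : q.natDegree ≤ m) (hr : r.natDegree ≤ m)
    {P : k[X][X][X]} (hP : Wt3 m D P) : GD (m * D) D (Th q r P) := by
  have hX : (X : k[X][X]) ∈ W k := by
    have h := mono_mem_W (1 : k[X]) 1 (by simp)
    simpa using h
  have hCX : (C X * X : k[X][X]) ∈ W k := by
    have h := mono_mem_W (X : k[X]) 1 natDegree_X_le
    rwa [pow_one] at h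
  have h1 : GD m 1 (Th q r (C X)) := by
    rw [Th_C_X]
    exact ((GD.hat hq).mono (by lia)).add (GD.const hm hX natDegree_X_le)
  have h2 : GD m 1 (Th q r X) := by
    rw [Th_X]
    refine ((GD.hat hr).mono (by lia)).add (GD.const hm hCX ?_)
    refine natDegree_mul_le.trans ?_
    rw [natDegree_C, zero_add]
    exact natDegree_X_le
  have h3 : P = ∑ j ∈ Finset.range (P.natDegree + 1),
      ∑ i ∈ Finset.range ((P.coeff j).natDegree + 1),
        C (C ((P.coeff j).coeff i)) * C X ^ i * X ^ j := by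
    conv_lhs => rw [P.as_sum_range_C_mul_X_pow]
    refine Finset.sum_congr rfl fun j _ => ?_
    conv_lhs => rw [(P.coeff j).as_sum_range_C_mul_X_pow]
    rw [map_sum, Finset.sum_mul]
    refine Finset.sum_congr rfl fun i _ => ?_
    rw [C_mul, C_pow]
  rw [h3, map_sum]
  refine GD.sum _ _ fun j _ => ?_
  rw [map_sum]
  refine GD.sum _ _ fun i _ => ?_
  rw [map_mul, map_mul, map_pow, map_pow, Th_C_C]
  by_cases hij : i + j ≤ D
  · have h4 := ((GD.hat (hP.deg i j hij)).mul (h1.pow i)).mul (h2.pow j)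
    have h5 : m * (D - (i + j)) + m * i + m * j = m * D := by
      rw [← mul_add, ← mul_add]
      congr 1
      lia
    rw [h5] at h4
    exact h4.mono (by lia)
  · rw [hP.zero i j (by lia), Polynomial.map_zero, zero_mul, zero_mul]
    exact GD.zero

/-- all but boundedly many members of the pencil through a split set are irreducible -/
theorem bertini_pencil' {m D : ℕ} (hm : 0 < m) (hD : 0 < D) {P : k[X][X][X]} (hP : Wt3 m D P)
    (hirr : Irreducible P) {q r : k[X]} (hq : q.natDegree ≤ m) (hr : r.natDegree ≤ m)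
    (a : Fin (m * D) → k) (ha : Function.Injective a)
    (hroot : ∀ i, ((P.eval (C r)).eval q).eval (a i) = 0) (hN0 : (P.eval (C r)).eval q ≠ 0) :
    ∃ B : Finset k, B.card ≤ 2 ^ (m * D) * (2 * D) ∧ ∀ c ∉ B,
      Irreducible (P.eval (C (r - C c * q) + C (C c) * X)) := by
  have hG := GD_Th hm hq hr hP
  obtain ⟨z, hz⟩ := hG.top
  set N : k[X] := (P.eval (C r)).eval q with hN
  have hat := Th_at0 q r P
  rw [← hN] at hat
  have hNd : N.natDegree ≤ m * D := by
    have h1 : (N.map (C : k →+* k[X])).natDegree = N.natDegree :=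
      natDegree_map_eq_of_injective (C_injective) N
    rw [← h1, ← hat]
    exact natDegree_map_le.trans hG.deg
  have hzN : N.coeff (m * D) = z := by
    have h1 := congrArg (fun p => p.coeff (m * D)) hat
    simp only [coeff_map] at h1
    rw [hz, at0_apply, coeff_C_zero] at h1
    exact (C_injective h1).symm
  have hdvd : (∏ i, (X - C (a i))) ∣ N := prod_dvd Finset.univ a N (fun i _ => hroot i)
    fun i _ j _ hij => (sub_ne_zero.2 fun h => hij (ha h)).isUnit
  have hcard : (∏ i, (X - C (a i))).natDegree = m * D := by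
    rw [natDegree_prod', Finset.card_univ, Fintype.card_fin]
  have hNeq : N = C N.leadingCoeff * ∏ i, (X - C (a i)) :=
    eq_leadingCoeff_mul_of_monic_of_dvd_of_natDegree_le (monic_prod' _ _) hdvd
      (by rw [hcard]; exact hNd)
  have hNdeg : N.natDegree = m * D := by
    refine le_antisymm hNd ?_
    rw [← hcard]
    exact natDegree_le_of_dvd hdvd hN0
  have hlc : N.leadingCoeff = z := by
    rw [leadingCoeff, hNdeg, hzN]
  have hz0 : z ≠ 0 := by
    rw [← hlc]
    exact leadingCoeff_ne_zero.2 hN0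
  set F : k[X][X][X] := C (C (C z⁻¹)) * Th q r P with hF
  have hunit : IsUnit (C (C (C z⁻¹)) : k[X][X][X]) :=
    isUnit_C.2 (isUnit_C.2 (isUnit_C.2 (inv_ne_zero hz0).isUnit))
  have hFc : F.coeff (m * D) = 1 := by
    rw [hF, coeff_C_mul, hz, ← C_mul, ← C_mul, inv_mul_cancel₀ hz0, C_1, C_1]
  have hFd : F.natDegree ≤ m * D := by
    refine (natDegree_C_mul_le _ _).trans hG.deg
  have hFdeg : F.natDegree = m * D := by
    refine le_antisymm hFd (le_natDegree_of_ne_zero ?_)
    rw [hFc]
    exact one_ne_zero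
  have hFm : F.Monic := by
    rw [Monic, leadingCoeff, hFdeg, hFc]
  have hFW : CW F := by
    intro i
    rw [hF, coeff_C_mul]
    exact Subring.mul_mem _ (C_mem_W _) (hG.wt i)
  have hFD : ∀ i, (F.coeff i).natDegree ≤ D := by
    intro i
    rw [hF, coeff_C_mul]
    exact (natDegree_C_mul_le _ _).trans (hG.tdeg i)
  have hFirr : Irreducible F := by
    rw [hF, irreducible_isUnit_mul hunit]
    exact Th_irreducible hirr hN0
  have hF0 : F.map (at0 k[X]) = ∏ i, (X - C (C (a i))) := by
    have h1 := congrArg (fun p => p.map (C : k →+* k[X])) hNeq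
    simp only [Polynomial.map_mul, Polynomial.map_prod, Polynomial.map_sub, map_X, map_C] at h1
    rw [hF, Polynomial.map_mul, map_C, hat, h1, hlc, at0_apply, coeff_C_zero, ← mul_assoc,
      ← C_mul, ← C_mul, inv_mul_cancel₀ hz0, C_1, C_1, one_mul]
  obtain ⟨B, hB, hBc⟩ := bertini hFm hFdeg (Nat.mul_pos hm hD) hFW hFD hFirr a ha hF0
  refine ⟨B, hB, fun c hc => ?_⟩
  have h1 := hBc c hc
  rw [hF, Polynomial.map_mul, map_C] at h1
  have h2 : IsUnit (C (sp c (C (C z⁻¹))) : k[X][X]) := by
    refine isUnit_C.2 ?_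
    have : sp c (C (C z⁻¹)) = C z⁻¹ := by simp
    rw [this]
    exact isUnit_C.2 (inv_ne_zero hz0).isUnit
  rw [irreducible_isUnit_mul h2, Th_sp] at h1
  exact (MulEquiv.irreducible_iff (eT q).toMulEquiv).1 h1

end bounds

/-- **Bertini for the pencil through a split set**: `F` a field, `k` a field over `F` (for instance
an algebraic closure). -/
theorem bertini_pencil {F k : Type*} [Field F] [DecidableEq F] [Field k] [Algebra F k] {m D : ℕ} (hm : 0 < m)
    (hD : 0 < D) {P : F[X][X][X]} (hP : Wt3 m D P)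
    (hirr : Irreducible (P.map (mapRingHom (mapRingHom (algebraMap F k))))) {q r : F[X]}
    (hq : q.natDegree ≤ m) (hr : r.natDegree ≤ m)
    (hN : ((P.eval (C r)).eval q).roots.toFinset.card = m * D) :
    ∃ B : Finset F, B.card ≤ 2 ^ (m * D) * (2 * D) ∧ ∀ c ∉ B,
      Irreducible ((P.eval (C (r - C c * q) + C (C c) * X)).map
        (mapRingHom (algebraMap F k))) := by
  classical
  set φ : F →+* k := algebraMap F k with hφ
  have hφi : Function.Injective φ := φ.injective
  set N : F[X] := (P.eval (C r)).eval q with hNd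
  have hN0 : N ≠ 0 := by
    intro h
    rw [h, roots_zero, Multiset.toFinset_zero, Finset.card_empty] at hN
    exact (Nat.mul_pos hm hD).ne hN
  have hev : ∀ (Q : F[X][X][X]) (α β : F[X]), ((Q.map (mapRingHom (mapRingHom φ))).eval
      (C (β.map φ))).eval (α.map φ) = ((Q.eval (C β)).eval α).map φ := by
    intro Q α β
    have h2 : (Q.map (mapRingHom (mapRingHom φ))).eval (C (β.map φ)) =
        (Q.eval (C β)).map (mapRingHom φ) := by
      have h3 := eval_map_apply (p := Q) (mapRingHom (mapRingHom φ)) (C β)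
      rw [coe_mapRingHom, map_C] at h3
      rw [coe_mapRingHom] at h3
      exact h3
    rw [h2]
    have h4 := eval_map_apply (p := Q.eval (C β)) (mapRingHom φ) α
    rw [coe_mapRingHom] at h4
    exact h4
  have hPk : Wt3 m D (P.map (mapRingHom (mapRingHom φ))) := by
    constructor
    · intro i j hij
      rw [coeff_map, coe_mapRingHom, coeff_map, coe_mapRingHom]
      exact natDegree_map_le.trans (hP.deg i j hij)
    · intro i j hij
      rw [coeff_map, coe_mapRingHom, coeff_map, hP.zero i j hij, map_zero]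
  have hNk : ((P.map (mapRingHom (mapRingHom φ))).eval (C (r.map φ))).eval (q.map φ) =
      N.map φ := by
    rw [hev]
  let e : Fin (m * D) ≃ N.roots.toFinset := (N.roots.toFinset.equivFinOfCardEq hN).symm
  obtain ⟨B, hB, hBc⟩ := bertini_pencil' hm hD hPk hirr (natDegree_map_le.trans hq)
    (natDegree_map_le.trans hr) (fun i => φ (e i : F))
    (fun i j h => e.injective (Subtype.ext (hφi h))) (by
      intro i
      rw [hNk, eval_map_apply]
      have h1 := (e i).2
      rw [Multiset.mem_toFinset, mem_roots hN0] at h1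
      rw [h1.eq_zero, map_zero]) (by
      rw [hNk]
      exact (Polynomial.map_ne_zero_iff hφi).2 hN0)
  refine ⟨B.preimage φ hφi.injOn, ?_, fun c hc => ?_⟩
  · refine le_trans ?_ hB
    exact Finset.card_le_card_of_injOn φ (fun c hc => by
      exact (Finset.mem_preimage.1 hc)) hφi.injOn
  · have h1 := hBc (φ c) fun h => hc (Finset.mem_preimage.2 h)
    have h2 : (P.eval (C (r - C c * q) + C (C c) * X)).map (mapRingHom φ) =
        (P.map (mapRingHom (mapRingHom φ))).eval
          (C (r.map φ - C (φ c) * q.map φ) + C (C (φ c)) * X) := by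
      have h3 := eval_map_apply (p := P) (mapRingHom (mapRingHom φ))
        (C (r - C c * q) + C (C c) * X)
      rw [coe_mapRingHom] at h3
      rw [← h3]
      congr 1
      simp
    rw [h2]
    exact h1

end MPb197b4P.Bert
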