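import Pool.Agent.Lib.MP_b197b4_ntP.LTwoC

/-!
# MP_b197b4_nt: the graph family `z = α(x) + λ y` over one finite field

Curves are the pairs `(α, λ)`, blocks (spaces of codimension two) the pairs `(q, r)`, i.e.
`y = q(x)`, `z = r(x)`; the block lies in the curve if `r = α + λ q`.
-/

namespace MPb197b4P

open Polynomial Finset

section Count

variable {F : Type*} [Field F] [Fintype F]

noncomputable instance instFintypeDegreeLT (N : ℕ) : Fintype (degreeLT F N) :=
  Fintype.ofEquiv (Fin N → F) (degreeLTEquiv F N).toEquiv.symm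

theorem card_degreeLT (N : ℕ) : Fintype.card (degreeLT F N) = Fintype.card F ^ N := by
  rw [Fintype.card_congr (degreeLTEquiv F N).toEquiv]
  simp

open Classical in
/-- the number of polynomials of degree `< N` with given values at `k ≤ N` points -/
theorem card_interp [DecidableEq F] {ι : Type*} [Fintype ι] {N : ℕ} (x v : ι → F) (hx : Function.Injective x)
    (hk : Fintype.card ι ≤ N) :
    (univ.filter fun q : degreeLT F N => ∀ i, (q : F[X]).eval (x i) = v i).card =
      Fintype.card F ^ (N - Fintype.card ι) := by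
  let ev : degreeLT F N →+ (ι → F) :=
    { toFun := fun q i => (q : F[X]).eval (x i)
      map_zero' := by ext i; simp
      map_add' := fun a b => by ext i; simp }
  have hs : ∀ w : ι → F, w ∈ Set.range ev := by
    intro w
    have hd : (Lagrange.interpolate univ x w).degree < (N : ℕ) := by
      refine (Lagrange.degree_interpolate_lt w (hx.injOn)).trans_le ?_
      rw [card_univ]
      exact_mod_cast hk
    refine ⟨⟨Lagrange.interpolate univ x w, mem_degreeLT.mpr hd⟩, ?_⟩
    ext i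
    exact Lagrange.eval_interpolate_at_node w hx.injOn (mem_univ i)
  have h1 : ∀ w : ι → F, (univ.filter fun q => ev q = w).card =
      (univ.filter fun q => ev q = v).card := fun w =>
    AddMonoidHom.card_fiber_eq_of_mem_range ev (hs w) (hs v)
  have h2 : Fintype.card (degreeLT F N) = ∑ w : ι → F, (univ.filter fun q => ev q = w).card := by
    rw [← card_univ]
    exact card_eq_sum_card_fiberwise fun q _ => mem_univ _
  rw [sum_congr rfl fun w _ => h1 w, sum_const, card_univ, card_degreeLT, smul_eq_mul] at h2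
  have h3 : (univ.filter fun q : degreeLT F N => ∀ i, (q : F[X]).eval (x i) = v i).card =
      (univ.filter fun q => ev q = v).card := by
    congr 1
    ext q
    simp only [mem_filter, mem_univ, true_and]
    exact funext_iff.symm
  rw [h3]
  have h4 : Fintype.card (ι → F) = Fintype.card F ^ Fintype.card ι := by simp
  rw [h4] at h2
  have h5 : 0 < Fintype.card F ^ Fintype.card ι := pow_pos Fintype.card_pos _
  refine Nat.eq_of_mul_eq_mul_left h5 ?_
  rw [← h2, ← pow_add]
  congr 1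
  omega

end Count

variable {F : Type*} [Field F]

/-- the point `p` is on the curve `z = α(x) + λ y` -/
def OnC {m : ℕ} (p : F × F × F) (h : degreeLT F (m + 1) × F) : Prop :=
  p.2.2 = (h.1 : F[X]).eval p.1 + h.2 * p.2.1

/-- the point `p` is on the block `y = q(x)`, `z = r(x)` -/
def OnB {m : ℕ} (p : F × F × F) (l : degreeLT F (m + 1) × degreeLT F (m + 1)) : Prop :=
  (l.1 : F[X]).eval p.1 = p.2.1 ∧ (l.2 : F[X]).eval p.1 = p.2.2

/-- the block is contained in the curve -/
def Inc {m : ℕ} (l : degreeLT F (m + 1) × degreeLT F (m + 1)) (h : degreeLT F (m + 1) × F) :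
    Prop :=
  l.2 = h.1 + h.2 • l.1

theorem Inc.onC {m : ℕ} {l : degreeLT F (m + 1) × degreeLT F (m + 1)}
    {h : degreeLT F (m + 1) × F} {p : F × F × F} (hi : Inc l h) (hp : OnB p l) : OnC p h := by
  have h1 : (l.2 : F[X]) = h.1 + h.2 • (l.1 : F[X]) := by
    rw [hi]
    simp
  rw [OnC, ← hp.2, h1, ← hp.1]
  simp

theorem Inc.onB {m : ℕ} {l : degreeLT F (m + 1) × degreeLT F (m + 1)}
    {h : degreeLT F (m + 1) × F} {p : F × F × F} (hi : Inc l h) (hp : OnC p h)
    (hq : (l.1 : F[X]).eval p.1 = p.2.1) : OnB p l := by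
  refine ⟨hq, ?_⟩
  have h1 : (l.2 : F[X]) = h.1 + h.2 • (l.1 : F[X]) := by
    rw [hi]
    simp
  rw [h1, hp, ← hq]
  simp

/-- two curves of different slopes meet in exactly one block; a common point lies on it -/
theorem exists_block {m : ℕ} {h h' : degreeLT F (m + 1) × F} (hne : h.2 ≠ h'.2) :
    ∃ l : degreeLT F (m + 1) × degreeLT F (m + 1), (Inc l h ∧ Inc l h') ∧
      (∀ l', Inc l' h → Inc l' h' → l' = l) ∧ ∀ p, OnC p h → OnC p h' → OnB p l := by
  have hd : h'.2 - h.2 ≠ 0 := sub_ne_zero.mpr hne.symm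
  set q : degreeLT F (m + 1) := (h'.2 - h.2)⁻¹ • (h.1 - h'.1) with hq
  have hq2 : (h'.2 - h.2) • q = h.1 - h'.1 := by
    rw [hq, smul_smul, mul_inv_cancel₀ hd, one_smul]
  have hi : Inc (q, h.1 + h.2 • q) h := rfl
  refine ⟨(q, h.1 + h.2 • q), ⟨hi, ?_⟩, ?_, ?_⟩
  · show h.1 + h.2 • q = h'.1 + h'.2 • q
    have h3 : h'.2 • q - h.2 • q = h.1 - h'.1 := (sub_smul h'.2 h.2 q).symm.trans hq2
    have h4 := sub_eq_iff_eq_add.mp h3
    rw [h4]
    abel
  · rintro ⟨q', r'⟩ h1 h2
    have h3 : r' = h.1 + h.2 • q' := h1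
    have h4 : r' = h'.1 + h'.2 • q' := h2
    have h5 : (h'.2 - h.2) • q' = (h'.2 - h.2) • q := by
      refine (sub_smul h'.2 h.2 q').trans (Eq.trans ?_ hq2.symm)
      rw [sub_eq_sub_iff_add_eq_add]
      exact (add_comm _ _).trans (h4.symm.trans h3)
    have h6 : q' = q := smul_right_injective _ hd h5
    rw [h3, h6]
  · intro p hp hp'
    refine hi.onB hp ?_
    have h7 : (h'.2 - h.2) * (q : F[X]).eval p.1 = (h'.2 - h.2) * p.2.1 := by
      have h8 : (h'.2 - h.2) * (q : F[X]).eval p.1 =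
          ((h.1 : F[X]) - (h'.1 : F[X])).eval p.1 := by
        have h9 := congrArg (fun t : degreeLT F (m + 1) => (t : F[X]).eval p.1) hq2
        simpa using h9
      rw [h8, eval_sub]
      have h10 := hp.symm.trans hp'
      linear_combination h10
    exact mul_left_cancel₀ hd h7

open Classical in
/-- **The second moment argument for the graph family.** -/
theorem graph_rigid [Fintype F] [DecidableEq F] {m j : ℕ} (hj : j ≤ m) (base : Fin j → F × F × F)
    (hb : Function.Injective fun i => (base i).1)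
    (S : F × F × F → Prop) (hS : ∀ p, S p → ∀ i, p.1 ≠ (base i).1)
    (good : degreeLT F (m + 1) × F → Prop) (hgood : ∀ h, good h → ∀ i, OnC (base i) h)
    (reg : F × F × F → degreeLT F (m + 1) × F → Prop)
    (spl : Finset (degreeLT F (m + 1) × degreeLT F (m + 1)))
    (hsb : ∀ l ∈ spl, ∀ i, OnB (base i) l)
    (hreg : ∀ l ∈ spl, ∀ h p, good h → Inc l h → S p → OnB p l → reg p h)
    (g : degreeLT F (m + 1) × F → F × F × F → ℝ) {A B E M n : ℝ} (hM : 0 < M) (hn : 0 ≤ n)
    (hB : 0 ≤ B)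
    (h4 : ∀ l ∈ spl, ((univ.filter fun p => S p ∧ OnB p l).card : ℝ) ≤ n)
    (h5 : ∀ l ∈ spl, ∀ h, good h → Inc l h →
      M ≤ ((univ.filter fun h => good h ∧ Inc l h).card : ℝ))
    (hR : ∀ l ∈ spl, ∀ h h', good h → good h' → Inc l h → Inc l h' →
      ∑ p ∈ univ.filter (fun p => S p ∧ OnB p l), g h p =
        ∑ p ∈ univ.filter (fun p => S p ∧ OnB p l), g h' p)
    (hN1 : ∀ h, good h → ∀ p, S p → OnC p h → reg p h →
      A ≤ ((spl.filter fun l => Inc l h ∧ OnB p l).card : ℝ))
    (hN2 : ∀ h, good h → ∀ p, S p → OnC p h → reg p h →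
      ∑ p' ∈ univ.filter (fun p' => (S p' ∧ OnC p' h ∧ reg p' h) ∧ p' ≠ p),
        |((spl.filter fun l => Inc l h ∧ OnB p l ∧ OnB p' l).card : ℝ) - B| ≤ E)
    (hlt : n * (Fintype.card F : ℝ) ^ (m - j) < (A - B - E) * M) :
    ∃ hh : F × F × F → ℝ, ∀ h p, good h → S p → OnC p h → reg p h → g h p = hh p := by
  obtain ⟨K, hK⟩ : ∃ K : F × F × F → degreeLT F (m + 1) × degreeLT F (m + 1) → Prop,
      ∀ p l, K p l ↔ (S p ∧ OnB p l) ∧ ∀ i, OnB (base i) l := ⟨_, fun _ _ => Iff.rfl⟩
  obtain ⟨I, hI⟩ : ∃ I : F × F × F → degreeLT F (m + 1) × F → Prop,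
      ∀ p h, I p h ↔ good h ∧ S p ∧ OnC p h ∧ reg p h := ⟨_, fun _ _ => Iff.rfl⟩
  obtain ⟨J, hJ⟩ : ∃ J : degreeLT F (m + 1) × degreeLT F (m + 1) → degreeLT F (m + 1) × F → Prop,
      ∀ l h, J l h ↔ good h ∧ Inc l h := ⟨_, fun _ _ => Iff.rfl⟩
  have hKs : ∀ l ∈ spl, ∀ p, K p l ↔ S p ∧ OnB p l := fun l hl p =>
    ⟨fun h => ((hK p l).mp h).1, fun h => (hK p l).mpr ⟨h, hsb l hl⟩⟩
  have hKf : ∀ l ∈ spl, (univ.filter fun p => K p l) = univ.filter fun p => S p ∧ OnB p l :=
    fun l hl => filter_congr fun p _ => hKs l hl p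
  have hJf : ∀ l, (univ.filter fun h => J l h) = univ.filter fun h => good h ∧ Inc l h :=
    fun l => filter_congr fun h _ => hJ l h
  suffices hsuf : ∃ hh : F × F × F → ℝ, ∀ h p, I p h → g h p = hh p by
    obtain ⟨hh, hhh⟩ := hsuf
    exact ⟨hh, fun h p h1 h2 h3 h6 => hhh h p ((hI p h).mpr ⟨h1, h2, h3, h6⟩)⟩
  refine rigid_cls (P := F × F × F) (H := degreeLT F (m + 1) × F)
    (L := degreeLT F (m + 1) × degreeLT F (m + 1)) (κ := F) (fun h => h.2)
    I J K spl g (θ := (Fintype.card F : ℝ) ^ (m - j)) (c := A - B - E) (M := M) (n := n) hM hn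
    ?_ ?_ ?_ ?_ ?_ ?_ ?_ hlt
  · intro l hl p h hp hi
    obtain ⟨g1, i1⟩ := (hJ l h).mp hi
    obtain ⟨s1, b1⟩ := (hKs l hl p).mp hp
    exact (hI p h).mpr ⟨g1, s1, i1.onC b1, hreg l hl h p g1 i1 s1 b1⟩
  · intro p h h' hne hp hp'
    obtain ⟨g1, s1, o1, -⟩ := (hI p h).mp hp
    obtain ⟨g2, -, o2, -⟩ := (hI p h').mp hp'
    by_cases hc : h.2 = h'.2
    · rw [if_pos hc, Nat.cast_eq_zero]
      refine card_eq_zero.mpr (eq_empty_of_forall_notMem fun l hl => ?_)
      obtain ⟨-, -, j1, j2⟩ := mem_filter.mp hl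
      have i1 := ((hJ l h).mp j1).2
      have i2 := ((hJ l h').mp j2).2
      refine hne (Prod.ext ?_ hc)
      have h7 : h.1 + h.2 • l.1 = h'.1 + h'.2 • l.1 := i1.symm.trans i2
      rw [hc] at h7
      exact add_right_cancel h7
    · rw [if_neg hc, Nat.cast_eq_one]
      obtain ⟨l, ⟨i1, i2⟩, hu, ho⟩ := exists_block hc
      refine card_eq_one.mpr ⟨l, ?_⟩
      ext l'
      rw [mem_filter, mem_singleton]
      constructor
      · rintro ⟨-, -, j1, j2⟩
        exact hu l' ((hJ l' h).mp j1).2 ((hJ l' h').mp j2).2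
      · rintro rfl
        exact ⟨mem_univ _, (hK p l').mpr ⟨⟨s1, ho p o1 o2⟩,
          fun i => ho _ (hgood h g1 i) (hgood h' g2 i)⟩, (hJ l' h).mpr ⟨g1, i1⟩,
          (hJ l' h').mpr ⟨g2, i2⟩⟩
  · intro p h hp
    obtain ⟨g1, s1, o1, -⟩ := (hI p h).mp hp
    let xs : Option (Fin j) → F := fun o => o.elim p.1 fun i => (base i).1
    let vs : Option (Fin j) → F := fun o => o.elim p.2.1 fun i => (base i).2.1
    have hxs : Function.Injective xs := by
      intro a b hab
      rcases a with _ | a <;> rcases b with _ | b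
      · rfl
      · exact absurd hab (hS p s1 b)
      · exact absurd hab.symm (hS p s1 a)
      · exact congrArg some (hb hab)
    have hcard := card_interp (N := m + 1) xs vs hxs (by simpa using hj)
    have h10 : m + 1 - Fintype.card (Option (Fin j)) = m - j := by
      simp
    rw [← Nat.cast_pow, Nat.cast_le, ← h10, ← hcard]
    refine card_le_card_of_injOn (fun l => l.1) ?_ ?_
    · intro l hl
      obtain ⟨-, k1, -⟩ := mem_filter.mp (mem_coe.mp hl)
      obtain ⟨⟨-, b1⟩, b2⟩ := (hK p l).mp k1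
      refine mem_coe.mpr (mem_filter.mpr ⟨mem_univ _, ?_⟩)
      rintro (_ | i)
      · exact b1.1
      · exact (b2 i).1
    · intro l hl l' hl' he
      obtain ⟨-, -, j1⟩ := mem_filter.mp (mem_coe.mp hl)
      obtain ⟨-, -, j2⟩ := mem_filter.mp (mem_coe.mp hl')
      have e1 : l.2 = h.1 + h.2 • l.1 := ((hJ l h).mp j1).2
      have e2 : l'.2 = h.1 + h.2 • l'.1 := ((hJ l' h).mp j2).2
      have e3 : l.1 = l'.1 := he
      exact Prod.ext e3 (by rw [e1, e2, e3])
  · intro l hl
    rw [hKf l hl]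
    exact h4 l hl
  · intro l hl h hj'
    obtain ⟨g1, i1⟩ := (hJ l h).mp hj'
    rw [hJf l]
    exact h5 l hl h g1 i1
  · intro l hl h h' j1 j2
    obtain ⟨g1, i1⟩ := (hJ l h).mp j1
    obtain ⟨g2, i2⟩ := (hJ l h').mp j2
    rw [hKf l hl]
    exact hR l hl h h' g1 g2 i1 i2
  · intro h φ hφ
    by_cases gh : good h
    · refine gram_row (P := F × F × F) (fun p => I p h) K
        (spl.filter fun l => J l h) (A := A) (B := B) (E := E) hB ?_ ?_ φ hφ
      · intro p hp
        obtain ⟨-, s1, o1, r1⟩ := (hI p h).mp hp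
        refine (hN1 h gh p s1 o1 r1).trans (Nat.cast_le.mpr (card_le_card fun l hl => ?_))
        obtain ⟨hl, i1, b1⟩ := mem_filter.mp hl
        exact mem_filter.mpr ⟨mem_filter.mpr ⟨hl, (hJ l h).mpr ⟨gh, i1⟩⟩,
          (hKs l hl p).mpr ⟨s1, b1⟩⟩
      · intro p hp
        obtain ⟨-, s1, o1, r1⟩ := (hI p h).mp hp
        refine le_trans (le_of_eq ?_) (hN2 h gh p s1 o1 r1)
        refine sum_congr ?_ fun p' hp' => ?_
        · ext p'
          rw [mem_filter, mem_filter, hI]
          simp only [gh, true_and]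
        have s2 : S p' := (mem_filter.mp hp').2.1.1
        have e1 : ((spl.filter fun l => J l h).filter fun l => K p l ∧ K p' l) =
            spl.filter fun l => Inc l h ∧ OnB p l ∧ OnB p' l := by
          rw [filter_filter]
          refine filter_congr fun l hl => ?_
          rw [hJ, hKs l hl, hKs l hl]
          simp only [gh, s1, s2, true_and]
        rw [e1]
    · have h12 : ∀ y, φ y = 0 := fun y => hφ y fun h' => gh ((hI y h).mp h').1
      simp [h12]

end MPb197b4P
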