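import Mathlib

/-!
# MP_b197b4_nt: the second moment argument, blocks which join curves of different classes only

`P` is a finite set of points, `H` a finite set of curves, `L` a finite set of blocks (spaces of
codimension two), `cls` a partition of the curves. Two different curves through a point lie on
exactly one block through this point if their classes differ and on no block otherwise.
-/

namespace MPb197b4P

open Finset

open Classical in
/-- the sum over the blocks through a point -/
theorem sum_lines_cls {H L κ : Type*} [Fintype H] [Fintype L] [Fintype κ] (cls : H → κ)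
    (K : L → Prop) (J : L → H → Prop)
    (I : H → Prop) (a : H → ℝ) (ha : ∀ x, ¬ I x → a x = 0) (hsum : ∑ x, a x = 0) {θ : ℝ}
    (h2 : ∀ x x', x ≠ x' → I x → I x' →
      ((univ.filter fun l => K l ∧ J l x ∧ J l x').card : ℝ) = if cls x = cls x' then 0 else 1)
    (h3 : ∀ x, I x → ((univ.filter fun l => K l ∧ J l x).card : ℝ) ≤ θ) :
    ∑ l ∈ univ.filter K, (∑ x ∈ univ.filter (J l), a x) ^ 2 ≤ θ * ∑ x, a x ^ 2 := by
  have e1 : ∑ l ∈ univ.filter K, (∑ x ∈ univ.filter (J l), a x) ^ 2 =
      ∑ x, ∑ x', ((univ.filter fun l => K l ∧ J l x ∧ J l x').card : ℝ) * (a x * a x') := by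
    have e2 : ∀ l, (∑ x ∈ univ.filter (J l), a x) ^ 2 =
        ∑ x, ∑ x', if J l x ∧ J l x' then a x * a x' else 0 := by
      intro l
      rw [sq, sum_mul_sum, sum_filter]
      refine sum_congr rfl fun x _ => ?_
      by_cases hx : J l x
      · rw [if_pos hx, sum_filter]
        refine sum_congr rfl fun x' _ => ?_
        simp [hx]
      · simp [hx]
    rw [sum_congr rfl fun l _ => e2 l, sum_comm]
    refine sum_congr rfl fun x _ => ?_
    rw [sum_comm]
    refine sum_congr rfl fun x' _ => ?_
    rw [← sum_filter, filter_filter, sum_const, nsmul_eq_mul]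
  have e3 : ∀ x x', ((univ.filter fun l => K l ∧ J l x ∧ J l x').card : ℝ) * (a x * a x') ≤
      (a x * a x' - if cls x = cls x' then a x * a x' else 0) +
        if x = x' then θ * a x ^ 2 else 0 := by
    intro x x'
    by_cases hx : I x
    · by_cases hx' : I x'
      · by_cases he : x = x'
        · subst he
          rw [if_pos rfl, if_pos rfl]
          have h := h3 x hx
          simp only [and_self]
          nlinarith [mul_le_mul_of_nonneg_right h (mul_self_nonneg (a x))]
        · rw [if_neg he, h2 x x' he hx hx', add_zero]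
          split_ifs <;> simp
      · rw [ha x' hx']
        simp only [mul_zero]
        by_cases he : x = x'
        · exact absurd (he ▸ hx) hx'
        · simp [if_neg he]
    · rw [ha x hx]
      simp
  rw [e1]
  have e4 : ∑ x, ∑ x', (if cls x = cls x' then a x * a x' else 0) =
      ∑ c, (∑ x ∈ univ.filter (fun x => cls x = c), a x) ^ 2 := by
    have e5 : ∀ c, (∑ x ∈ univ.filter (fun x => cls x = c), a x) ^ 2 =
        ∑ x, if cls x = c then (∑ x', if cls x = cls x' then a x * a x' else 0) else 0 := by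
      intro c
      rw [sq, sum_mul_sum, sum_filter]
      refine sum_congr rfl fun x _ => ?_
      by_cases hx : cls x = c
      · rw [if_pos hx, if_pos hx, sum_filter]
        refine sum_congr rfl fun x' _ => ?_
        by_cases hx' : cls x' = c
        · rw [if_pos hx', if_pos (hx.trans hx'.symm)]
        · rw [if_neg hx', if_neg fun h => hx' (h.symm.trans hx)]
      · rw [if_neg hx, if_neg hx]
    symm
    calc ∑ c, (∑ x ∈ univ.filter (fun x => cls x = c), a x) ^ 2
        = ∑ c, ∑ x, (if cls x = c then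
            (∑ x', if cls x = cls x' then a x * a x' else 0) else 0) :=
          sum_congr rfl fun c _ => e5 c
      _ = ∑ x, ∑ c, (if cls x = c then
            (∑ x', if cls x = cls x' then a x * a x' else 0) else 0) := sum_comm
      _ = _ := by
          refine sum_congr rfl fun x _ => ?_
          rw [sum_ite_eq, if_pos (mem_univ _)]
  calc ∑ x, ∑ x', ((univ.filter fun l => K l ∧ J l x ∧ J l x').card : ℝ) * (a x * a x')
      ≤ ∑ x, ∑ x', ((a x * a x' - if cls x = cls x' then a x * a x' else 0) +
        if x = x' then θ * a x ^ 2 else 0) :=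
        sum_le_sum fun x _ => sum_le_sum fun x' _ => e3 x x'
    _ = (∑ x, a x) * (∑ x, a x) -
        ∑ c, (∑ x ∈ univ.filter (fun x => cls x = c), a x) ^ 2 + θ * ∑ x, a x ^ 2 := by
        rw [← e4, sum_mul_sum, mul_sum, ← sum_sub_distrib, ← sum_add_distrib]
        refine sum_congr rfl fun x _ => ?_
        rw [sum_add_distrib, sum_sub_distrib, sum_ite_eq, if_pos (mem_univ x)]
    _ ≤ _ := by
        rw [hsum]
        have h := sum_nonneg fun c (_ : c ∈ (univ : Finset κ)) =>
          sq_nonneg (∑ x ∈ univ.filter (fun x => cls x = c), a x)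
        linarith

open Classical in
/-- **The second moment argument.** `K y l`: the block `l` goes through `y`; `J l x`: the good
curve `x` contains `l`; `I y x`: the good curve `x` goes through `y` (and is regular there). -/
theorem rigid_cls {P H L κ : Type*} [Fintype P] [Fintype H] [Fintype L] [Fintype κ]
    (cls : H → κ) (I : P → H → Prop) (J : L → H → Prop) (K : P → L → Prop) (spl : Finset L)
    (g : H → P → ℝ) {θ c M n : ℝ} (hM : 0 < M) (hn : 0 ≤ n)
    (h1 : ∀ l ∈ spl, ∀ y x, K y l → J l x → I y x)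
    (h2 : ∀ y x x', x ≠ x' → I y x → I y x' →
      ((univ.filter fun l => K y l ∧ J l x ∧ J l x').card : ℝ) =
        if cls x = cls x' then 0 else 1)
    (h3 : ∀ y x, I y x → ((univ.filter fun l => K y l ∧ J l x).card : ℝ) ≤ θ)
    (h4 : ∀ l ∈ spl, ((univ.filter fun y => K y l).card : ℝ) ≤ n)
    (h5 : ∀ l ∈ spl, ∀ x, J l x → M ≤ ((univ.filter (J l)).card : ℝ))
    (hR : ∀ l ∈ spl, ∀ x x', J l x → J l x' →
      ∑ y ∈ univ.filter (fun y => K y l), g x y = ∑ y ∈ univ.filter (fun y => K y l), g x' y)
    (hG : ∀ x, ∀ φ : P → ℝ, (∀ y, ¬ I y x → φ y = 0) → c * ∑ y, φ y ^ 2 ≤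
      ∑ l ∈ spl.filter (fun l => J l x), (∑ y ∈ univ.filter (fun y => K y l), φ y) ^ 2)
    (hlt : n * θ < c * M) :
    ∃ h : P → ℝ, ∀ x y, I y x → g x y = h y := by
  set av : P → ℝ := fun y => (∑ x ∈ univ.filter (I y), g x y) / ((univ.filter (I y)).card : ℝ)
    with hav
  set g' : H → P → ℝ := fun x y => if I y x then g x y - av y else 0 with hg'
  have hz : ∀ y, ∑ x, g' x y = 0 := by
    intro y
    rw [hg']
    simp only
    rw [← sum_filter, sum_sub_distrib, sum_const, nsmul_eq_mul, hav]
    simp only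
    by_cases hc : ((univ.filter (I y)).card : ℝ) = 0
    · have h0 : univ.filter (I y) = ∅ := by
        rw [Nat.cast_eq_zero] at hc
        exact card_eq_zero.mp hc
      simp [h0]
    · rw [mul_div_cancel₀ _ hc, sub_self]
  have hR' : ∀ l ∈ spl, ∀ x x', J l x → J l x' →
      ∑ y ∈ univ.filter (fun y => K y l), g' x y = ∑ y ∈ univ.filter (fun y => K y l), g' x' y := by
    intro l hl x x' hx hx'
    have e : ∀ z, J l z → ∑ y ∈ univ.filter (fun y => K y l), g' z y =
        ∑ y ∈ univ.filter (fun y => K y l), g z y - ∑ y ∈ univ.filter (fun y => K y l), av y := by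
      intro z hz'
      rw [← sum_sub_distrib]
      refine sum_congr rfl fun y hy => ?_
      rw [hg']
      simp only
      rw [if_pos (h1 l hl y z (mem_filter.mp hy).2 hz')]
    rw [e x hx, e x' hx', hR l hl x x' hx hx']
  set N : ℝ := ∑ y, ∑ x, g' x y ^ 2 with hN
  -- lower bound
  have lower : c * N ≤ ∑ l ∈ spl, ∑ x ∈ univ.filter (J l),
      (∑ y ∈ univ.filter (fun y => K y l), g' x y) ^ 2 := by
    have e1 : ∑ l ∈ spl, ∑ x ∈ univ.filter (J l),
        (∑ y ∈ univ.filter (fun y => K y l), g' x y) ^ 2 =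
        ∑ x, ∑ l ∈ spl.filter (fun l => J l x),
          (∑ y ∈ univ.filter (fun y => K y l), g' x y) ^ 2 := by
      simp only [sum_filter (s := spl), sum_filter (p := J _) (s := (univ : Finset H))]
      rw [sum_comm]
    rw [e1, hN, sum_comm, mul_sum]
    refine sum_le_sum fun x _ => hG x (g' x) fun y hy => ?_
    rw [hg']
    simp only
    rw [if_neg hy]
  -- upper bound
  have upper : ∀ l ∈ spl, ∑ x ∈ univ.filter (J l),
      (∑ y ∈ univ.filter (fun y => K y l), g' x y) ^ 2 ≤
      n / M * ∑ y ∈ univ.filter (fun y => K y l), (∑ x ∈ univ.filter (J l), g' x y) ^ 2 := by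
    intro l hl
    rcases (univ.filter (J l)).eq_empty_or_nonempty with h0 | ⟨x₀, hx₀⟩
    · rw [h0, sum_empty]
      exact mul_nonneg (div_nonneg hn hM.le) (sum_nonneg fun y _ => sq_nonneg _)
    · have hx₀' := (mem_filter.mp hx₀).2
      set G : ℝ := ∑ y ∈ univ.filter (fun y => K y l), g' x₀ y with hGdef
      set m : ℝ := ((univ.filter (J l)).card : ℝ) with hm
      have hmM : M ≤ m := h5 l hl x₀ hx₀'
      have e1 : ∑ x ∈ univ.filter (J l), (∑ y ∈ univ.filter (fun y => K y l), g' x y) ^ 2 =
          m * G ^ 2 := by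
        rw [sum_congr rfl fun x hx => by
          rw [hR' l hl x x₀ (mem_filter.mp hx).2 hx₀'], sum_const, nsmul_eq_mul]
      have e2 : ∑ y ∈ univ.filter (fun y => K y l), ∑ x ∈ univ.filter (J l), g' x y = m * G := by
        rw [sum_comm, sum_congr rfl fun x hx => hR' l hl x x₀ (mem_filter.mp hx).2 hx₀',
          sum_const, nsmul_eq_mul]
      have e3 : (m * G) ^ 2 ≤ n * ∑ y ∈ univ.filter (fun y => K y l),
          (∑ x ∈ univ.filter (J l), g' x y) ^ 2 := by
        rw [← e2]
        refine (sq_sum_le_card_mul_sum_sq).trans ?_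
        exact mul_le_mul_of_nonneg_right (h4 l hl) (sum_nonneg fun y _ => sq_nonneg _)
      rw [e1, div_mul_eq_mul_div, le_div_iff₀ hM]
      have hm0 : 0 < m := hM.trans_le hmM
      nlinarith [mul_le_mul_of_nonneg_left hmM (mul_nonneg hm0.le (sq_nonneg G))]
  have upper2 : ∑ l ∈ spl, ∑ x ∈ univ.filter (J l),
      (∑ y ∈ univ.filter (fun y => K y l), g' x y) ^ 2 ≤ n / M * (θ * N) := by
    calc ∑ l ∈ spl, ∑ x ∈ univ.filter (J l),
        (∑ y ∈ univ.filter (fun y => K y l), g' x y) ^ 2
        ≤ ∑ l ∈ spl, n / M * ∑ y ∈ univ.filter (fun y => K y l),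
          (∑ x ∈ univ.filter (J l), g' x y) ^ 2 := sum_le_sum upper
      _ ≤ ∑ l, n / M * ∑ y ∈ univ.filter (fun y => K y l),
          (∑ x ∈ univ.filter (J l), g' x y) ^ 2 :=
          sum_le_sum_of_subset_of_nonneg (subset_univ _) fun l _ _ =>
            mul_nonneg (div_nonneg hn hM.le) (sum_nonneg fun y _ => sq_nonneg _)
      _ = n / M * ∑ y, ∑ l ∈ univ.filter (K y), (∑ x ∈ univ.filter (J l), g' x y) ^ 2 := by
          rw [← mul_sum]
          congr 1
          simp only [sum_filter (p := fun y => K y _) (s := (univ : Finset P)),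
            sum_filter (p := K _) (s := (univ : Finset L))]
          rw [sum_comm]
      _ ≤ n / M * (θ * N) := by
          refine mul_le_mul_of_nonneg_left ?_ (div_nonneg hn hM.le)
          rw [hN, mul_sum]
          refine sum_le_sum fun y _ => ?_
          refine sum_lines_cls cls (K y) J (I y) (fun x => g' x y) (fun x hx => ?_) (hz y)
            (h2 y) (h3 y)
          rw [hg']
          simp only
          rw [if_neg hx]
  have hN0 : 0 ≤ N := sum_nonneg fun y _ => sum_nonneg fun x _ => sq_nonneg _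
  have hNz : N = 0 := by
    have h6 : c * N ≤ n / M * (θ * N) := lower.trans upper2
    have h7 : c * M * N ≤ n * θ * N := by
      have h8 := mul_le_mul_of_nonneg_right h6 hM.le
      have h9 : n / M * (θ * N) * M = n * θ * N := by
        field_simp
      rw [h9] at h8
      linarith
    nlinarith
  refine ⟨av, fun x y hxy => ?_⟩
  have h6 : g' x y ^ 2 = 0 := by
    have h7 := (sum_eq_zero_iff_of_nonneg (fun y _ => sum_nonneg fun x _ =>
      sq_nonneg (g' x y))).mp (hN ▸ hNz) y (mem_univ y)
    exact (sum_eq_zero_iff_of_nonneg (fun x _ => sq_nonneg (g' x y))).mp h7 x (mem_univ x)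
  have h7 : g' x y = 0 := by nlinarith
  rw [hg'] at h7
  simp only at h7
  rw [if_pos hxy] at h7
  linarith

open Classical in
/-- **Lower bound for the quadratic form** `∑_l (∑_(y in l) φ y)²` from row sums: every point is
on at least `A` members, and the numbers of members through `y` and `y'` differ from `B` by at
most `E` in total, for every `y`. -/
theorem gram_row {P L : Type*} [Fintype P] [DecidableEq P] (I : P → Prop) (K : P → L → Prop) (S : Finset L)
    {A B E : ℝ} (hB : 0 ≤ B)
    (h1 : ∀ y, I y → A ≤ ((S.filter (K y)).card : ℝ))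
    (h2 : ∀ y, I y → ∑ y' ∈ univ.filter (fun y' => I y' ∧ y' ≠ y),
      |((S.filter fun l => K y l ∧ K y' l).card : ℝ) - B| ≤ E)
    (φ : P → ℝ) (hφ : ∀ y, ¬ I y → φ y = 0) :
    (A - B - E) * ∑ y, φ y ^ 2 ≤
      ∑ l ∈ S, (∑ y ∈ univ.filter (fun y => K y l), φ y) ^ 2 := by
  have e1 : ∑ l ∈ S, (∑ y ∈ univ.filter (fun y => K y l), φ y) ^ 2 =
      ∑ y, ∑ y', ((S.filter fun l => K y l ∧ K y' l).card : ℝ) * (φ y * φ y') := by
    have e2 : ∀ l, (∑ y ∈ univ.filter (fun y => K y l), φ y) ^ 2 =
        ∑ y, ∑ y', if K y l ∧ K y' l then φ y * φ y' else 0 := by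
      intro l
      rw [sq, sum_mul_sum, sum_filter]
      refine sum_congr rfl fun y _ => ?_
      by_cases hy : K y l
      · rw [if_pos hy, sum_filter]
        refine sum_congr rfl fun y' _ => ?_
        simp [hy]
      · simp [hy]
    rw [sum_congr rfl fun l _ => e2 l, sum_comm]
    refine sum_congr rfl fun y _ => ?_
    rw [sum_comm]
    refine sum_congr rfl fun y' _ => ?_
    rw [← sum_filter, sum_const, nsmul_eq_mul]
  set N2 : P → P → ℝ := fun y y' => ((S.filter fun l => K y l ∧ K y' l).card : ℝ) with hN2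
  have hsym : ∀ y y', N2 y y' = N2 y' y := by
    intro y y'
    rw [hN2]
    simp only
    congr 2
    refine filter_congr fun l _ => ?_
    exact and_comm
  set D : P → P → ℝ := fun y y' => if I y ∧ I y' ∧ y' ≠ y then |N2 y y' - B| else 0 with hD
  have hDn : ∀ y y', 0 ≤ D y y' := by
    intro y y'
    rw [hD]
    simp only
    split_ifs
    · exact abs_nonneg _
    · exact le_rfl
  have hDs : ∀ y y', D y y' = D y' y := by
    intro y y'
    rw [hD]
    simp only
    by_cases h : I y ∧ I y' ∧ y' ≠ y
    · rw [if_pos h, if_pos ⟨h.2.1, h.1, h.2.2.symm⟩, hsym]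
    · rw [if_neg h, if_neg fun h' => h ⟨h'.2.1, h'.1, h'.2.2.symm⟩]
  have hrow : ∀ y, I y → ∑ y', D y y' ≤ E := by
    intro y hy
    refine le_trans (le_of_eq ?_) (h2 y hy)
    rw [sum_filter]
    refine sum_congr rfl fun y' _ => ?_
    rw [hD]
    simp only [hy, true_and]
    rfl
  have e3 : ∀ y y', B * (φ y * φ y') - D y y' * ((φ y ^ 2 + φ y' ^ 2) / 2) +
      (if y = y' then (A - B) * φ y ^ 2 else 0) ≤ N2 y y' * (φ y * φ y') := by
    intro y y'
    by_cases hy : I y
    · by_cases hy' : I y'
      · by_cases he : y = y'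
        · subst he
          rw [if_pos rfl]
          have h := h1 y hy
          have h0 : D y y = 0 := by
            rw [hD]
            simp
          rw [h0, hN2]
          simp only [and_self]
          nlinarith [mul_le_mul_of_nonneg_right h (mul_self_nonneg (φ y))]
        · rw [if_neg he, add_zero]
          have h0 : D y y' = |N2 y y' - B| := by
            rw [hD]
            simp only
            rw [if_pos ⟨hy, hy', fun h => he h.symm⟩]
          rw [h0]
          have h3 : |(N2 y y' - B) * (φ y * φ y')| ≤ |N2 y y' - B| * ((φ y ^ 2 + φ y' ^ 2) / 2) := by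
            rw [abs_mul]
            refine mul_le_mul_of_nonneg_left ?_ (abs_nonneg _)
            rw [abs_le]
            constructor <;> nlinarith [sq_nonneg (φ y + φ y'), sq_nonneg (φ y - φ y')]
          have h4 := (abs_le.mp h3).1
          nlinarith
      · have h0 : D y y' = 0 := by
          rw [hD]
          simp only
          rw [if_neg fun h => hy' h.2.1]
        rw [hφ y' hy', h0]
        by_cases he : y = y'
        · exact absurd (he ▸ hy) hy'
        · simp [if_neg he]
    · have h0 : D y y' = 0 := by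
        rw [hD]
        simp only
        rw [if_neg fun h => hy h.1]
      rw [hφ y hy, h0]
      simp
  rw [e1]
  have e5 : ∑ y, ∑ y', D y y' * ((φ y ^ 2 + φ y' ^ 2) / 2) = ∑ y, (∑ y', D y y') * φ y ^ 2 := by
    have e6 : ∑ y, ∑ y', D y y' * ((φ y ^ 2 + φ y' ^ 2) / 2) =
        (∑ y, ∑ y', D y y' * φ y ^ 2) / 2 + (∑ y, ∑ y', D y y' * φ y' ^ 2) / 2 := by
      rw [← add_div, ← sum_add_distrib, sum_div]
      refine sum_congr rfl fun y _ => ?_
      rw [← sum_add_distrib, sum_div]
      refine sum_congr rfl fun y' _ => ?_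
      ring
    have e7 : ∑ y, ∑ y', D y y' * φ y' ^ 2 = ∑ y, ∑ y', D y y' * φ y ^ 2 := by
      rw [sum_comm]
      refine sum_congr rfl fun y _ => sum_congr rfl fun y' _ => ?_
      rw [hDs]
    rw [e6, e7, add_halves]
    refine sum_congr rfl fun y _ => ?_
    rw [sum_mul]
  have e8 : ∑ y, (∑ y', D y y') * φ y ^ 2 ≤ E * ∑ y, φ y ^ 2 := by
    rw [mul_sum]
    refine sum_le_sum fun y _ => ?_
    by_cases hy : I y
    · exact mul_le_mul_of_nonneg_right (hrow y hy) (sq_nonneg _)
    · rw [hφ y hy]
      simp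
  calc (A - B - E) * ∑ y, φ y ^ 2
      ≤ B * (∑ y, φ y) ^ 2 - ∑ y, (∑ y', D y y') * φ y ^ 2 + (A - B) * ∑ y, φ y ^ 2 := by
        nlinarith [mul_nonneg hB (sq_nonneg (∑ y, φ y))]
    _ = ∑ y, ∑ y', (B * (φ y * φ y') - D y y' * ((φ y ^ 2 + φ y' ^ 2) / 2) +
        (if y = y' then (A - B) * φ y ^ 2 else 0)) := by
        rw [← e5, sq, sum_mul_sum, mul_sum, mul_sum, ← sum_sub_distrib, ← sum_add_distrib]
        refine sum_congr rfl fun y _ => ?_
        rw [sum_add_distrib, sum_sub_distrib, sum_ite_eq, if_pos (mem_univ y), mul_sum]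
    _ ≤ ∑ y, ∑ y', N2 y y' * (φ y * φ y') :=
        sum_le_sum fun y _ => sum_le_sum fun y' _ => e3 y y'

end MPb197b4P
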