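import Mathlib

set_option autoImplicit false

/-!
# MonoA: Hensel's lemma for power series; Eisenstein quadratic polynomials
-/

namespace MPb197b4P

open Polynomial

section Adic

variable {k : Type} [Field k]

open PowerSeries in
theorem ps_mem_pow_iff (n : ℕ) (x : PowerSeries k) :
    x ∈ (Ideal.span {(PowerSeries.X : PowerSeries k)}) ^ n ↔ ∀ m < n, PowerSeries.coeff m x = 0 := by
  rw [Ideal.span_singleton_pow, Ideal.mem_span_singleton, PowerSeries.X_pow_dvd_iff]

theorem ps_smod_iff (n : ℕ) (x y : PowerSeries k) :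
    x ≡ y [SMOD (Ideal.span {(PowerSeries.X : PowerSeries k)}) ^ n • (⊤ : Submodule (PowerSeries k) (PowerSeries k))] ↔
      ∀ m < n, PowerSeries.coeff m x = PowerSeries.coeff m y := by
  rw [SModEq.sub_mem, smul_eq_mul, Ideal.mul_top, ps_mem_pow_iff]
  refine forall₂_congr fun m _ => ?_
  rw [map_sub, sub_eq_zero]

instance ps_complete : IsAdicComplete (Ideal.span {(PowerSeries.X : PowerSeries k)}) (PowerSeries k) where
  haus' := by
    intro x hx
    ext m
    have h := (ps_smod_iff (m + 1) x 0).1 (hx (m + 1)) m (Nat.lt_succ_self m)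
    simpa using h
  prec' := by
    intro f hf
    refine ⟨PowerSeries.mk fun n => PowerSeries.coeff n (f (n + 1)), fun n => ?_⟩
    rw [ps_smod_iff]
    intro m hm
    rw [PowerSeries.coeff_mk]
    exact ((ps_smod_iff (m + 1) _ _).1 (hf (Nat.succ_le_of_lt hm)) m (Nat.lt_succ_self m)).symm

end Adic

section Hensel

variable {k : Type} [Field k]

theorem ps_mem_span_X (x : PowerSeries k) :
    x ∈ Ideal.span {(PowerSeries.X : PowerSeries k)} ↔ PowerSeries.constantCoeff x = 0 := by
  rw [Ideal.mem_span_singleton, PowerSeries.X_dvd_iff]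

theorem ps_hensel (f : (PowerSeries k)[X]) (hf : f.Monic) (b : k)
    (h0 : (f.map (PowerSeries.constantCoeff (R := k))).eval b = 0)
    (h1 : (f.map (PowerSeries.constantCoeff (R := k))).derivative.eval b ≠ 0) :
    ∃ ξ : PowerSeries k, f.eval ξ = 0 ∧ PowerSeries.constantCoeff ξ = b := by
  have key : ∀ g : (PowerSeries k)[X], PowerSeries.constantCoeff (g.eval (PowerSeries.C b)) =
      (g.map (PowerSeries.constantCoeff (R := k))).eval b := by
    intro g
    rw [eval_map, ← eval₂_at_apply]
    simp
  obtain ⟨ξ, hξ, hξ'⟩ := HenselianRing.is_henselian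
    (I := Ideal.span {(PowerSeries.X : PowerSeries k)}) f hf (PowerSeries.C b)
    (by rw [ps_mem_span_X, key, h0])
    (by
      have hu : IsUnit (f.derivative.eval (PowerSeries.C b)) := by
        rw [PowerSeries.isUnit_iff_constantCoeff, key, ← derivative_map]
        exact isUnit_iff_ne_zero.2 h1
      exact hu.map _)
  refine ⟨ξ, hξ, ?_⟩
  rw [ps_mem_span_X, map_sub, sub_eq_zero] at hξ'
  simpa using hξ'

end Hensel

end MPb197b4P
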