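import Pool.Agent.Lib.MP_b197b4_ntP.MonoA

set_option autoImplicit false

/-!
# MonoB: splitting off the simple roots
-/

namespace MPb197b4P

open Polynomial

section Eis

variable {k : Type} [Field k]

theorem eval_quad {A : Type} [CommRing A] {Q : A[X]} (hQ : Q.Monic) (hd : Q.natDegree = 2) (r : A) :
    Q.eval r = r ^ 2 + Q.coeff 1 * r + Q.coeff 0 := by
  have h2 : Q.coeff 2 = 1 := by
    have := hQ.coeff_natDegree
    rwa [hd] at this
  rw [eval_eq_sum_range, hd]
  simp only [Finset.sum_range_succ, Finset.sum_range_zero, h2]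
  ring

/-- Eisenstein: no root in the fraction field. -/
theorem eis_no_root {Q : (PowerSeries k)[X]} (hQ : Q.Monic) (hd : Q.natDegree = 2) (a : k)
    (h0 : Q.map (PowerSeries.constantCoeff (R := k)) = (X - C a) ^ 2)
    (h1 : PowerSeries.coeff 1 (Q.eval (PowerSeries.C a)) ≠ 0)
    {K : Type} [Field K] [Algebra (PowerSeries k) K] [IsFractionRing (PowerSeries k) K] (ρ : K) :
    (Q.map (algebraMap (PowerSeries k) K)).eval ρ ≠ 0 := by
  intro h
  have hint : IsIntegral (PowerSeries k) ρ := ⟨Q, hQ, by rwa [eval_map] at h⟩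
  obtain ⟨r, rfl⟩ := IsIntegrallyClosed.isIntegral_iff.1 hint
  rw [eval_map, eval₂_at_apply] at h
  have hr : Q.eval r = 0 :=
    (IsFractionRing.injective (PowerSeries k) K) (by rw [h, map_zero])
  have hc1 : (PowerSeries.constantCoeff (R := k)) (Q.coeff 1) = -2 * a := by
    have := congrArg (fun f => Polynomial.coeff f 1) h0
    simp only [coeff_map] at this
    have h3 : (C a ^ 2 : k[X]).coeff 1 = 0 := by
      rw [← C_pow, coeff_C]
      simp
    rw [this, sub_sq]
    simp [coeff_X, h3]
  have hr0 : PowerSeries.constantCoeff r = a := by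
    have h2 : (Q.map (PowerSeries.constantCoeff (R := k))).eval (PowerSeries.constantCoeff r) = 0 := by
      rw [eval_map, eval₂_at_apply, hr, map_zero]
    rw [h0] at h2
    simp only [eval_pow, eval_sub, eval_X, eval_C] at h2
    exact sub_eq_zero.1 (pow_eq_zero_iff (two_ne_zero) |>.1 h2)
  have hdiff : Q.eval r - Q.eval (PowerSeries.C a) =
      (r - PowerSeries.C a) * (r + PowerSeries.C a + Q.coeff 1) := by
    rw [eval_quad hQ hd, eval_quad hQ hd]
    ring
  have hx1 : (PowerSeries.X : PowerSeries k) ∣ r - PowerSeries.C a := by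
    rw [PowerSeries.X_dvd_iff, map_sub, hr0]
    simp
  have hx2 : (PowerSeries.X : PowerSeries k) ∣ r + PowerSeries.C a + Q.coeff 1 := by
    rw [PowerSeries.X_dvd_iff, map_add, map_add, hr0, hc1]
    simp
    ring
  have hx : (PowerSeries.X : PowerSeries k) ^ 2 ∣ Q.eval r - Q.eval (PowerSeries.C a) := by
    rw [hdiff, sq]
    exact mul_dvd_mul hx1 hx2
  rw [hr, zero_sub, dvd_neg, PowerSeries.X_pow_dvd_iff] at hx
  exact h1 (hx 1 one_lt_two)

end Eis

section Split

variable {k : Type} [Field k] [IsAlgClosed k]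

/-- `R = Q * ∏ (X - ξ b)`. -/
theorem split_off (R : (PowerSeries k)[X]) (hR : R.Monic) (a : k) (S : k[X]) (hS : S.Separable)
    (hSa : S.eval a ≠ 0)
    (h0 : R.map (PowerSeries.constantCoeff (R := k)) = (X - C a) ^ 2 * S)
    (h1 : PowerSeries.coeff 1 (R.eval (PowerSeries.C a)) ≠ 0) :
    ∃ (Q P : (PowerSeries k)[X]) (T : Multiset (PowerSeries k)), Q.Monic ∧ Q.natDegree = 2 ∧
      Q.map (PowerSeries.constantCoeff (R := k)) = (X - C a) ^ 2 ∧
      PowerSeries.coeff 1 (Q.eval (PowerSeries.C a)) ≠ 0 ∧ P = (T.map (fun t => X - C t)).prod ∧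
      R = P * Q := by
  classical
  have hSm : S.Monic := by
    have h2 : ((X - C a) ^ 2 * S).Monic := h0 ▸ hR.map _
    exact ((monic_X_sub_C a).pow 2).of_mul_monic_left h2
  -- the lifts of the roots of `S`
  have hlift : ∀ b ∈ S.roots, ∃ ξ : PowerSeries k, R.eval ξ = 0 ∧ PowerSeries.constantCoeff ξ = b := by
    intro b hb
    have hb0 : S.eval b = 0 := (mem_roots'.1 hb).2
    have hba : b - a ≠ 0 := by
      intro h
      rw [sub_eq_zero.1 h] at hb0
      exact hSa hb0
    refine ps_hensel R hR b (by rw [h0, eval_mul, hb0, mul_zero]) ?_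
    rw [h0, derivative_mul, eval_add, eval_mul, eval_mul, hb0, mul_zero, zero_add]
    refine mul_ne_zero ?_ ?_
    · simp only [eval_pow, eval_sub, eval_X, eval_C]
      exact pow_ne_zero 2 hba
    · intro h
      obtain ⟨u, v, huv⟩ := hS
      have := congrArg (Polynomial.eval b) huv
      rw [eval_add, eval_mul, eval_mul, hb0, h] at this
      simp at this
  choose! ξ hξ1 hξ2 using hlift
  set T : Multiset (PowerSeries k) := S.roots.map ξ with hT
  have hnd : T.Nodup := by
    refine Multiset.Nodup.map_on ?_ (nodup_roots hS)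
    intro x hx y hy hxy
    rw [← hξ2 x hx, ← hξ2 y hy, hxy]
  have hle : T ≤ R.roots := by
    rw [Multiset.le_iff_subset hnd]
    intro x hx
    obtain ⟨b, hb, rfl⟩ := Multiset.mem_map.1 hx
    rw [mem_roots hR.ne_zero]
    exact hξ1 b hb
  obtain ⟨Q, hQ⟩ := (Multiset.prod_X_sub_C_dvd_iff_le_roots hR.ne_zero T).2 hle
  set P : (PowerSeries k)[X] := (T.map (fun t => X - C t)).prod with hP
  have hPm : P.Monic := monic_multiset_prod_of_monic _ _ fun t _ => monic_X_sub_C t
  have hQm : Q.Monic := hPm.of_mul_monic_left (hQ ▸ hR)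
  have hPS : P.map (PowerSeries.constantCoeff (R := k)) = S := by
    rw [hP, Polynomial.map_multiset_prod, Multiset.map_map, hT, Multiset.map_map]
    have h2 : S = (S.roots.map (fun b => X - C b)).prod := by
      have := (IsAlgClosed.splits S).eq_prod_roots_of_monic hSm
      exact this
    conv_rhs => rw [h2]
    congr 1
    refine Multiset.map_congr rfl fun b hb => ?_
    simp [hξ2 b hb]
  have hQ0 : Q.map (PowerSeries.constantCoeff (R := k)) = (X - C a) ^ 2 := by
    have h2 : S * Q.map (PowerSeries.constantCoeff (R := k)) = S * (X - C a) ^ 2 := by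
      rw [← hPS, ← Polynomial.map_mul, ← hQ, h0, hPS, mul_comm]
    exact mul_left_cancel₀ hSm.ne_zero h2
  refine ⟨Q, P, T, hQm, ?_, hQ0, ?_, rfl, hQ⟩
  · have := congrArg natDegree hQ0
    rw [hQm.natDegree_map, (monic_X_sub_C a).natDegree_pow, natDegree_X_sub_C] at this
    simpa using this
  · intro h2
    apply h1
    rw [hQ, eval_mul]
    have h3 : (PowerSeries.X : PowerSeries k) ^ 2 ∣ Q.eval (PowerSeries.C a) := by
      rw [PowerSeries.X_pow_dvd_iff]
      intro m hm
      have : m = 0 ∨ m = 1 := by omega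
      rcases this with rfl | rfl
      · have h4 : (Q.map (PowerSeries.constantCoeff (R := k))).eval a = 0 := by
          rw [hQ0]; simp
        have h5 : PowerSeries.constantCoeff (Q.eval (PowerSeries.C a)) = 0 := by
          rw [← eval₂_at_apply, ← eval_map]
          simpa using h4
        simpa using h5
      · exact h2
    exact (PowerSeries.X_pow_dvd_iff.1 (Dvd.dvd.mul_left h3 _)) 1 one_lt_two

end Split

end MPb197b4P
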